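import Mathlib

set_option autoImplicit false

namespace Pool.Agent.H8.S1832aux

open Finset

noncomputable section

abbrev C0 := ZeroAtInftyContinuousMap ℕ ℝ

/-- index type of the coordinates -/
abbrev Idx := Option (Option (ℕ × Finset ℕ))

/-- `s` is a tag of level `k` -/
def Tag (k : ℕ) (s : ℝ) : Prop := ∃ i : ℕ, i < 1000 ^ k ∧ s = (2 * i + 1) / (2 * 1000 ^ k)

def hi (K : ℕ) (s : ℝ) : Prop := ∃ k, K ≤ k ∧ Tag k s
def lo (K : ℕ) (s : ℝ) : Prop := ∃ k, k < K ∧ Tag k s

theorem tag_aux {k k' : ℕ} {s : ℝ} (h : Tag k s) (h' : Tag k' s) : ¬ k < k' := by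
  intro hlt
  obtain ⟨i, -, hi⟩ := h
  obtain ⟨j, -, hj⟩ := h'
  obtain ⟨d, rfl⟩ := Nat.exists_eq_add_of_lt hlt
  rw [hi, div_eq_div_iff (by positivity) (by positivity)] at hj
  have h1 : ((2 * i + 1) * (2 * 1000 ^ (k + d + 1)) : ℕ) = (2 * j + 1) * (2 * 1000 ^ k) := by
    exact_mod_cast hj
  have h2 : (2 * i + 1) * (1000 ^ d * 1000) = 2 * j + 1 := by
    have h3 : 0 < 2 * 1000 ^ k := by positivity
    apply Nat.eq_of_mul_eq_mul_right h3
    rw [← h1]
    ring
  have h4 : (2 * i + 1) * (1000 ^ d * 1000) = 2 * ((2 * i + 1) * (1000 ^ d * 500)) := by ring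
  omega

theorem tag_unique {k k' : ℕ} {s : ℝ} (h : Tag k s) (h' : Tag k' s) : k = k' := by
  have := tag_aux h h'
  have := tag_aux h' h
  omega

theorem not_hi_lo {K : ℕ} {s : ℝ} (h : hi K s) (h' : lo K s) : False := by
  obtain ⟨k, hk, hk'⟩ := h
  obtain ⟨l, hl, hl'⟩ := h'
  have := tag_unique hk' hl'
  omega

theorem parity {K : ℕ} {s : ℝ} (h : hi K s) (c : ℕ) : (1000 : ℝ) ^ K * s ≠ c := by
  obtain ⟨k, hk, i, -, hi⟩ := h
  obtain ⟨d, rfl⟩ := Nat.exists_eq_add_of_le hk
  intro hc
  rw [hi, mul_div_assoc', div_eq_iff (by positivity)] at hc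
  have h1 : (1000 ^ K * (2 * i + 1) : ℕ) = c * (2 * 1000 ^ (K + d)) := by exact_mod_cast hc
  have h2 : 2 * i + 1 = c * (2 * 1000 ^ d) := by
    have h3 : 0 < 1000 ^ K := by positivity
    apply Nat.eq_of_mul_eq_mul_left h3
    rw [h1]
    ring
  have h4 : c * (2 * 1000 ^ d) = 2 * (c * 1000 ^ d) := by ring
  omega

open Classical in
/-- the values of the coordinates -/
def F (s : ℝ) : Idx → ℝ
  | none => if h : ∃ k, Tag k s then (-1) ^ (Classical.choose h) else 0
  | some none => if ∃ k, Tag k s then 0 else 1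
  | some (some (K, A)) => if A ⊆ range (1000 ^ K) ∧ hi K s then
      (if ⌊(1000 : ℝ) ^ K * s⌋₊ ∈ A then 1 else 0) - (A.card : ℝ) / 1000 ^ K else 0

theorem F_none {s : ℝ} {k : ℕ} (h : Tag k s) : F s none = (-1) ^ k := by
  have hex : ∃ k, Tag k s := ⟨k, h⟩
  unfold F
  simp only [hex, dif_pos]
  rw [tag_unique (Classical.choose_spec hex) h]

theorem F_none' {s : ℝ} (h : ¬ ∃ k, Tag k s) : F s none = 0 := by
  unfold F
  simp only [h, dif_neg, not_false_eq_true]

theorem F_abs_none (s : ℝ) : |F s none| ≤ 1 := by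
  by_cases h : ∃ k, Tag k s
  · obtain ⟨k, hk⟩ := h
    rw [F_none hk, abs_pow, abs_neg, abs_one, one_pow]
  · rw [F_none' h]; norm_num

theorem F_bound (s : ℝ) (x : Idx) : |F s x| ≤ 1 := by
  rcases x with _ | _ | ⟨K, A⟩
  · exact F_abs_none s
  · unfold F
    simp only
    split_ifs <;> norm_num
  · unfold F
    simp only
    split_ifs with h h1
    · have h2 : (A.card : ℝ) / 1000 ^ K ≤ 1 := by
        rw [div_le_one (by positivity)]
        have := card_le_card h.1
        rw [card_range] at this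
        exact_mod_cast this
      have h3 : 0 ≤ (A.card : ℝ) / 1000 ^ K := by positivity
      rw [abs_le]; constructor <;> linarith
    · have h2 : (A.card : ℝ) / 1000 ^ K ≤ 1 := by
        rw [div_le_one (by positivity)]
        have := card_le_card h.1
        rw [card_range] at this
        exact_mod_cast this
      have h3 : 0 ≤ (A.card : ℝ) / 1000 ^ K := by positivity
      rw [abs_le]; constructor <;> linarith
    · norm_num

theorem F_fin (s : ℝ) : (Function.support (F s)).Finite := by
  by_cases hex : ∃ k, Tag k s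
  · obtain ⟨k0, hk0⟩ := hex
    have h1 : (⋃ K ∈ Set.Iic k0, (fun A : Finset ℕ => (some (some (K, A)) : Idx)) ''
        (↑((range (1000 ^ K)).powerset) : Set (Finset ℕ))).Finite := by
      refine Set.Finite.biUnion (Set.finite_Iic k0) (fun K _ => ?_)
      exact (Finset.finite_toSet _).image _
    refine ((h1.insert (some none)).insert none).subset ?_
    rintro (_ | _ | ⟨K, A⟩) hx
    · exact Or.inl rfl
    · exact Or.inr (Or.inl rfl)
    · right; right
      rw [Function.mem_support] at hx
      unfold F at hx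
      simp only at hx
      split_ifs at hx with h
      · obtain ⟨hA, k, hk, hk'⟩ := h
        rw [Set.mem_iUnion₂]
        refine ⟨K, ?_, A, ?_, rfl⟩
        · rw [tag_unique hk0 hk']
          exact hk
        · rw [mem_coe, mem_powerset]
          exact hA
      all_goals first | (obtain ⟨hA, k, hk, hk'⟩ := h
                         rw [Set.mem_iUnion₂]
                         refine ⟨K, ?_, A, ?_, rfl⟩
                         · rw [tag_unique hk0 hk']
                           exact hk
                         · rw [mem_coe, mem_powerset]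
                           exact hA) | exact absurd rfl hx
  · refine (Set.finite_singleton (some none)).subset ?_
    rintro (_ | _ | ⟨K, A⟩) hx
    · exact absurd (F_none' hex) hx
    · rfl
    · exfalso
      rw [Function.mem_support] at hx
      apply hx
      unfold F
      simp only
      rw [if_neg]
      rintro ⟨-, k, -, hk⟩
      exact hex ⟨k, hk⟩

/-- element of `c_0` with given finitely supported coordinates -/
def mkC (G : Idx → ℝ) (hG : (Function.support G).Finite) : C0 where
  toFun := Function.extend Encodable.encode G 0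
  continuous_toFun := continuous_of_discreteTopology
  zero_at_infty' := by
    rw [Filter.cocompact_eq_cofinite]
    refine tendsto_const_nhds.congr' ?_
    rw [Filter.EventuallyEq, Filter.eventually_cofinite]
    refine (hG.image Encodable.encode).subset ?_
    intro n hn
    simp only [Set.mem_ofPred_eq] at hn
    by_cases hx : ∃ x : Idx, Encodable.encode x = n
    · obtain ⟨x, rfl⟩ := hx
      rw [Encodable.encode_injective.extend_apply] at hn
      exact ⟨x, fun h => hn h.symm, rfl⟩
    · rw [Function.extend_apply' _ _ _ hx] at hn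
      exact absurd rfl hn

theorem mkC_apply (G : Idx → ℝ) (hG : (Function.support G).Finite) (x : Idx) :
    mkC G hG (Encodable.encode x) = G x := by
  change Function.extend Encodable.encode G 0 (Encodable.encode x) = G x
  rw [Encodable.encode_injective.extend_apply]

theorem mkC_apply' (G : Idx → ℝ) (hG : (Function.support G).Finite) (n : ℕ)
    (hn : ¬ ∃ x : Idx, Encodable.encode x = n) : mkC G hG n = 0 := by
  change Function.extend Encodable.encode G 0 n = 0
  rw [Function.extend_apply' _ _ _ hn]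
  rfl

def fn (s : ℝ) : C0 := mkC (F s) (F_fin s)

theorem apply_le_norm (g : C0) (n : ℕ) : |g n| ≤ ‖g‖ := by
  have := g.toBCF.norm_coe_le_norm n
  rw [ZeroAtInftyContinuousMap.norm_toBCF_eq_norm] at this
  exact this

theorem norm_fn (s : ℝ) : ‖fn s‖ ≤ 1 := by
  rw [← ZeroAtInftyContinuousMap.norm_toBCF_eq_norm, BoundedContinuousFunction.norm_le zero_le_one]
  intro n
  change |fn s n| ≤ 1
  by_cases hx : ∃ x : Idx, Encodable.encode x = n
  · obtain ⟨x, rfl⟩ := hx
    unfold fn
    rw [mkC_apply]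
    exact F_bound s x
  · unfold fn
    rw [mkC_apply' _ _ _ hx]
    norm_num

theorem sum_app (n : ℕ) (c : ℕ → ℝ) (g : ℕ → C0) (m : ℕ) :
    (∑ i ∈ range n, c i • g i) m = ∑ i ∈ range n, c i * g i m := by
  induction n with
  | zero => simp
  | succ n ih =>
    rw [sum_range_succ, sum_range_succ, ZeroAtInftyContinuousMap.add_apply, ih]
    rfl

/-- the first unit vector -/
def e1 : C0 := mkC (fun x => if x = none then 1 else 0) (by
  refine (Set.finite_singleton (none : Idx)).subset ?_
  intro x hx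
  rw [Function.mem_support] at hx
  by_contra h
  exact hx (if_neg h))

theorem sum_div (a D : ℕ) (g : ℕ → ℝ) :
    ∑ i ∈ range (a * D), g (i / D) = ∑ j ∈ range a, D * g j := by
  induction a with
  | zero => simp
  | succ a ih =>
    rw [Nat.succ_mul, sum_range_add, ih, sum_range_succ]
    congr 1
    rw [← nsmul_eq_mul, ← card_range D, ← sum_const, card_range]
    apply sum_congr rfl
    intro x hx
    rw [mem_range] at hx
    congr 1
    rw [mul_comm a D, Nat.mul_add_div (by omega), Nat.div_eq_of_lt hx, add_zero]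

theorem tag_mid (m i : ℕ) (hi : i < 1000 ^ m) :
    Tag m ((2 * i + 1) / (2 * 1000 ^ m)) := ⟨i, hi, rfl⟩

theorem floor_mid (K d i : ℕ) :
    ⌊(1000 : ℝ) ^ K * ((2 * i + 1) / (2 * 1000 ^ (K + d)))⌋₊ = i / 1000 ^ d := by
  have h1 : (1000 : ℝ) ^ K * ((2 * i + 1) / (2 * 1000 ^ (K + d))) =
      (2 * i + 1) / (2 * 1000 ^ d) := by
    rw [pow_add]
    field_simp
  rw [h1, Nat.floor_eq_iff (by positivity)]
  have hD : 0 < 1000 ^ d := by positivity
  have h2 := Nat.div_add_mod i (1000 ^ d)
  have h3 := Nat.mod_lt i hD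
  have hDr : (0 : ℝ) < 2 * 1000 ^ d := by positivity
  constructor
  · rw [le_div_iff₀ hDr]
    have : (i / 1000 ^ d) * (2 * 1000 ^ d) ≤ 2 * i + 1 := by
      have e : (i / 1000 ^ d) * (2 * 1000 ^ d) = 2 * (1000 ^ d * (i / 1000 ^ d)) := by ring
      omega
    exact_mod_cast this
  · rw [div_lt_iff₀ hDr]
    have : 2 * i + 1 < (i / 1000 ^ d + 1) * (2 * 1000 ^ d) := by
      have e : (i / 1000 ^ d + 1) * (2 * 1000 ^ d) =
        2 * (1000 ^ d * (i / 1000 ^ d)) + 2 * 1000 ^ d := by ring
      omega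
    exact_mod_cast this

theorem uniform_sum (m : ℕ) :
    ∑ i ∈ range (1000 ^ m), ((((i + 1 : ℕ) : ℝ) / 1000 ^ m) - ((i : ℝ) / 1000 ^ m)) •
      fn ((2 * i + 1) / (2 * 1000 ^ m)) = ((-1 : ℝ) ^ m) • e1 := by
  have hN : (0 : ℝ) < 1000 ^ m := by positivity
  ext n
  rw [sum_app]
  have hl : ∀ i : ℕ, (((i + 1 : ℕ) : ℝ) / 1000 ^ m) - ((i : ℝ) / 1000 ^ m) = 1 / 1000 ^ m := by
    intro i
    push_cast
    ring
  simp_rw [hl]
  rw [ZeroAtInftyContinuousMap.smul_apply, smul_eq_mul, ← mul_sum]
  by_cases hx : ∃ x : Idx, Encodable.encode x = n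
  · obtain ⟨x, rfl⟩ := hx
    unfold fn e1
    simp_rw [mkC_apply]
    rcases x with _ | _ | ⟨K, A⟩
    · rw [sum_congr rfl (fun i hi => F_none (tag_mid m i (mem_range.1 hi)))]
      rw [sum_const, card_range, nsmul_eq_mul]
      push_cast
      simp only [if_true]
      field_simp
    · have : ∀ i ∈ range (1000 ^ m), F ((2 * i + 1) / (2 * 1000 ^ m)) (some none) = 0 := by
        intro i hi
        unfold F
        simp only
        rw [if_pos ⟨m, tag_mid m i (mem_range.1 hi)⟩]
      rw [sum_congr rfl this]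
      simp
    · have hr : ((-1 : ℝ) ^ m) * (if (some (some (K, A)) : Idx) = none then 1 else 0) = 0 := by
        simp
      rw [hr]
      by_cases hA : A ⊆ range (1000 ^ K) ∧ K ≤ m
      · obtain ⟨hA, hK⟩ := hA
        obtain ⟨d, rfl⟩ := Nat.exists_eq_add_of_le hK
        have h1 : ∀ i ∈ range (1000 ^ (K + d)),
            F ((2 * i + 1) / (2 * 1000 ^ (K + d))) (some (some (K, A))) =
            (fun j : ℕ => (if j ∈ A then (1 : ℝ) else 0) - (A.card : ℝ) / 1000 ^ K)
              (i / 1000 ^ d) := by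
          intro i hi
          unfold F
          simp only
          rw [if_pos ⟨hA, K + d, hK, tag_mid _ i (mem_range.1 hi)⟩, floor_mid]
        have hp : (1000 : ℕ) ^ (K + d) = 1000 ^ K * 1000 ^ d := pow_add _ _ _
        rw [sum_congr rfl h1, hp, sum_div (1000 ^ K) (1000 ^ d)
          (fun j : ℕ => (if j ∈ A then (1 : ℝ) else 0) - (A.card : ℝ) / 1000 ^ K), ← mul_sum, sum_sub_distrib, sum_const, card_range,
          nsmul_eq_mul, sum_ite_mem, inter_eq_right.2 hA, sum_const, nsmul_eq_mul]
        push_cast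
        field_simp
        simp
      · have h1 : ∀ i ∈ range (1000 ^ m), F ((2 * i + 1) / (2 * 1000 ^ m))
            (some (some (K, A))) = 0 := by
          intro i hi
          unfold F
          simp only
          rw [if_neg]
          rintro ⟨hA', k, hk, hk'⟩
          apply hA
          refine ⟨hA', ?_⟩
          rw [tag_unique (tag_mid m i (mem_range.1 hi)) hk']
          exact hk
        rw [sum_congr rfl h1]
        simp
  · unfold fn e1
    simp_rw [mkC_apply' _ _ _ hx]
    simp

/-- the number of tags of level less than `K` is small -/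
theorem tag_count (K : ℕ) : ∃ T : Finset ℝ, (∀ s, lo K s → s ∈ T) ∧ 999 * T.card ≤ 1000 ^ K := by
  classical
  refine ⟨(range K).biUnion (fun k => (range (1000 ^ k)).image
    (fun i : ℕ => (2 * (i : ℝ) + 1) / (2 * 1000 ^ k))), ?_, ?_⟩
  · rintro s ⟨k, hk, i, hi, rfl⟩
    rw [mem_biUnion]
    exact ⟨k, mem_range.2 hk, mem_image.2 ⟨i, mem_range.2 hi, rfl⟩⟩
  · have h1 : ((range K).biUnion (fun k => (range (1000 ^ k)).image
      (fun i : ℕ => (2 * (i : ℝ) + 1) / (2 * 1000 ^ k)))).card ≤ ∑ k ∈ range K, 1000 ^ k := by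
      refine card_biUnion_le.trans (sum_le_sum fun k _ => ?_)
      refine card_image_le.trans ?_
      rw [card_range]
    have h2 : ∀ K : ℕ, 999 * ∑ k ∈ range K, 1000 ^ k ≤ 1000 ^ K := by
      intro K
      induction K with
      | zero => simp
      | succ K ih =>
        rw [sum_range_succ, pow_succ]
        omega
    have := h2 K
    omega

section partition

variable (n : ℕ) (x t : ℕ → ℝ)

theorem mono_x (hx : ∀ i, i < n → x i < x (i + 1)) : ∀ i j, i ≤ j → j ≤ n → x i ≤ x j := by
  intro i j hij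
  induction j, hij using Nat.le_induction with
  | base => intro _; exact le_rfl
  | succ j hj ih =>
    intro hjn
    exact (ih (by omega)).trans (hx j (by omega)).le

open Classical in
theorem low_card (hx : ∀ i, i < n → x i < x (i + 1))
    (ht : ∀ i, i < n → x i ≤ t i ∧ t i ≤ x (i + 1)) (K : ℕ) :
    999 * ((range n).filter (fun i => lo K (t i))).card ≤ 2 * 1000 ^ K := by
  obtain ⟨T, hT1, hT2⟩ := tag_count K
  have hmono := mono_x n x hx
  have key : ∀ i j, i < n → j < n → t i = t j → i < j → j = i + 1 := by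
    intro i j hi hj hij hlt
    by_contra hne
    have h1 : i + 1 < j := by omega
    have h2 := (ht i hi).2
    have h3 := (ht j hj).1
    have h4 := hmono (i + 2) j (by omega) (by omega)
    have h5 := hx (i + 1) (by omega)
    have h6 : i + 1 + 1 = i + 2 := rfl
    rw [h6] at h5
    linarith
  have h1 : ((range n).filter (fun i => lo K (t i))).card ≤ 2 *
      (((range n).filter (fun i => lo K (t i))).image t).card := by
    apply card_le_mul_card_image
    intro a _
    by_contra hcon
    rw [not_le, two_lt_card] at hcon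
    obtain ⟨i, hi, j, hj, l, hl, hij, hil, hjl⟩ := hcon
    rw [mem_filter, mem_filter, mem_range] at hi hj hl
    have a1 := key i j hi.1.1 hj.1.1 (hi.2.trans hj.2.symm)
    have a2 := key j i hj.1.1 hi.1.1 (hj.2.trans hi.2.symm)
    have a3 := key i l hi.1.1 hl.1.1 (hi.2.trans hl.2.symm)
    have a4 := key l i hl.1.1 hi.1.1 (hl.2.trans hi.2.symm)
    have a5 := key j l hj.1.1 hl.1.1 (hj.2.trans hl.2.symm)
    have a6 := key l j hl.1.1 hj.1.1 (hl.2.trans hj.2.symm)
    omega
  have h2 : (((range n).filter (fun i => lo K (t i))).image t).card ≤ T.card := by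
    apply card_le_card
    intro s hs
    rw [mem_image] at hs
    obtain ⟨i, hi, rfl⟩ := hs
    exact hT1 _ (mem_filter.1 hi).2
  omega

open Classical in
/-- cells without high tags -/
def Z (K : ℕ) : Finset ℕ :=
  (range (1000 ^ K)).filter (fun c => ∀ i < n, hi K (t i) → ⌊(1000 : ℝ) ^ K * t i⌋₊ ≠ c)

open Classical in
theorem Z_card (h0 : x 0 = 0) (h1 : x n = 1) (hx : ∀ i, i < n → x i < x (i + 1))
    (ht : ∀ i, i < n → x i ≤ t i ∧ t i ≤ x (i + 1)) (K : ℕ) :
    (1000 : ℝ) ^ K * ∑ i ∈ (range n).filter (fun i => lo K (t i)), (x (i + 1) - x i) ≤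
      (Z n t K).card + 2 * ((range n).filter (fun i => lo K (t i))).card := by
  have hmono := mono_x n x hx
  have hN : (0 : ℝ) < 1000 ^ K := by positivity
  have hpos : ∀ i, i ≤ n → 0 ≤ x i := fun i hi => h0 ▸ hmono 0 i (Nat.zero_le _) hi
  have hle : ∀ i, i ≤ n → x i ≤ 1 := fun i hi => h1 ▸ hmono i n hi le_rfl
  let C : ℕ → Finset ℕ := fun i => Ico ⌈(1000 : ℝ) ^ K * x i⌉₊ ⌊(1000 : ℝ) ^ K * x (i + 1)⌋₊
  have hC : ∀ i, i < n → ∀ c ∈ C i, (1000 : ℝ) ^ K * x i ≤ c ∧
      (c : ℝ) + 1 ≤ (1000 : ℝ) ^ K * x (i + 1) := by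
    intro i hi c hc
    rw [mem_Ico] at hc
    refine ⟨(Nat.ceil_le.1 hc.1), ?_⟩
    have h2 : c + 1 ≤ ⌊(1000 : ℝ) ^ K * x (i + 1)⌋₊ := hc.2
    have h3 : ((c + 1 : ℕ) : ℝ) ≤ ⌊(1000 : ℝ) ^ K * x (i + 1)⌋₊ := by exact_mod_cast h2
    have h4 := Nat.floor_le (mul_nonneg hN.le (hpos (i + 1) (by omega)))
    push_cast at h3
    linarith
  have hcard : ∀ i, i < n → (1000 : ℝ) ^ K * (x (i + 1) - x i) ≤ (C i).card + 2 := by
    intro i hi
    have h2 : (⌊(1000 : ℝ) ^ K * x (i + 1)⌋₊ : ℝ) - ⌈(1000 : ℝ) ^ K * x i⌉₊ ≤ (C i).card := by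
      rw [Nat.card_Ico]
      have := Nat.le_sub_of_add_le (le_refl (⌊(1000 : ℝ) ^ K * x (i + 1)⌋₊ -
        ⌈(1000 : ℝ) ^ K * x i⌉₊ + 0))
      have h5 : ⌊(1000 : ℝ) ^ K * x (i + 1)⌋₊ ≤
        (⌊(1000 : ℝ) ^ K * x (i + 1)⌋₊ - ⌈(1000 : ℝ) ^ K * x i⌉₊) + ⌈(1000 : ℝ) ^ K * x i⌉₊ := by
        omega
      have h6 : (⌊(1000 : ℝ) ^ K * x (i + 1)⌋₊ : ℝ) ≤
        ((⌊(1000 : ℝ) ^ K * x (i + 1)⌋₊ - ⌈(1000 : ℝ) ^ K * x i⌉₊ : ℕ) : ℝ) +
          ⌈(1000 : ℝ) ^ K * x i⌉₊ := by exact_mod_cast h5
      linarith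
    have h3 := Nat.lt_floor_add_one ((1000 : ℝ) ^ K * x (i + 1))
    have h4 := Nat.ceil_lt_add_one (mul_nonneg hN.le (hpos i hi.le))
    rw [mul_sub]
    linarith
  have hsub : ∀ i ∈ (range n).filter (fun i => lo K (t i)), C i ⊆ Z n t K := by
    intro i hi c hc
    rw [mem_filter, mem_range] at hi
    obtain ⟨hin, hlo⟩ := hi
    obtain ⟨hc1, hc2⟩ := hC i hin c hc
    unfold Z
    rw [mem_filter, mem_range]
    constructor
    · have h2 : (c : ℝ) + 1 ≤ 1000 ^ K := hc2.trans (mul_le_of_le_one_right hN.le (hle _ (by omega)))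
      have h3 : c + 1 ≤ 1000 ^ K := by exact_mod_cast h2
      omega
    · intro j hj hhi hfl
      have htj : 0 ≤ t j := (hpos j hj.le).trans (ht j hj).1
      rw [Nat.floor_eq_iff (mul_nonneg hN.le htj)] at hfl
      have hne := parity hhi c
      have h2 : (c : ℝ) < (1000 : ℝ) ^ K * t j := lt_of_le_of_ne hfl.1 (Ne.symm hne)
      have h3 : x i < t j := by
        have : (1000 : ℝ) ^ K * x i < (1000 : ℝ) ^ K * t j := by linarith
        exact lt_of_mul_lt_mul_left this hN.le
      have h4 : t j < x (i + 1) := by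
        have : (1000 : ℝ) ^ K * t j < (1000 : ℝ) ^ K * x (i + 1) := by linarith [hfl.2]
        exact lt_of_mul_lt_mul_left this hN.le
      have h5 : i = j := by
        rcases lt_trichotomy i j with h | h | h
        · have := hmono (i + 1) j h hj.le
          have := (ht j hj).1
          linarith
        · exact h
        · have := hmono (j + 1) i h hin.le
          have := (ht j hj).2
          linarith
      subst h5
      exact not_hi_lo hhi hlo
  have hdisj : ∀ i ∈ (range n).filter (fun i => lo K (t i)),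
      ∀ j ∈ (range n).filter (fun i => lo K (t i)), i ≠ j → Disjoint (C i) (C j) := by
    have aux : ∀ i j, i < n → j < n → i < j → Disjoint (C i) (C j) := by
      intro i j hi hj hij
      rw [Finset.disjoint_left]
      intro c hc hc'
      have a1 := (hC i hi c hc).2
      have a2 := (hC j hj c hc').1
      have a3 := mul_le_mul_of_nonneg_left (hmono (i + 1) j hij hj.le) hN.le
      linarith
    intro i hi j hj hij
    rw [mem_filter, mem_range] at hi hj
    rcases lt_or_gt_of_ne hij with h | h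
    · exact aux i j hi.1 hj.1 h
    · exact (aux j i hj.1 hi.1 h).symm
  have hcz : ∑ i ∈ (range n).filter (fun i => lo K (t i)), (C i).card ≤ (Z n t K).card := by
    rw [← card_biUnion hdisj]
    apply card_le_card
    intro c hc
    rw [mem_biUnion] at hc
    obtain ⟨i, hi, hc⟩ := hc
    exact hsub i hi hc
  have hcz' : (∑ i ∈ (range n).filter (fun i => lo K (t i)), ((C i).card : ℝ)) ≤
      ((Z n t K).card : ℝ) := by exact_mod_cast hcz
  rw [mul_sum]
  have h7 : ∑ i ∈ (range n).filter (fun i => lo K (t i)), (1000 : ℝ) ^ K * (x (i + 1) - x i) ≤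
      ∑ i ∈ (range n).filter (fun i => lo K (t i)), (((C i).card : ℝ) + 2) :=
    sum_le_sum (fun i hi => hcard i (mem_range.1 (mem_filter.1 hi).1))
  rw [sum_add_distrib, sum_const, nsmul_eq_mul] at h7
  linarith

open Classical in
theorem far (h0 : x 0 = 0) (h1 : x n = 1) (hx : ∀ i, i < n → x i < x (i + 1))
    (ht : ∀ i, i < n → x i ≤ t i ∧ t i ≤ x (i + 1)) :
    1 / 100 ≤ ‖∑ i ∈ range n, (x (i + 1) - x i) • fn (t i)‖ := by
  by_contra hcon
  rw [not_le] at hcon
  have hcoord : ∀ a : Idx, |∑ i ∈ range n, (x (i + 1) - x i) * F (t i) a| < 1 / 100 := by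
    intro a
    have h2 := apply_le_norm (∑ i ∈ range n, (x (i + 1) - x i) • fn (t i)) (Encodable.encode a)
    rw [sum_app] at h2
    unfold fn at h2 hcon
    simp_rw [mkC_apply] at h2
    exact h2.trans_lt hcon
  have hsum : ∑ i ∈ range n, (x (i + 1) - x i) = 1 := by
    rw [sum_range_sub, h0, h1, sub_zero]
  let M : ℕ → ℝ := fun K => ∑ i ∈ range n, (x (i + 1) - x i) * (if hi K (t i) then 1 else 0)
  let L : ℕ → ℝ := fun K => ∑ i ∈ range n, (x (i + 1) - x i) * (if lo K (t i) then 1 else 0)
  let q : ℝ := ∑ i ∈ range n, (x (i + 1) - x i) * F (t i) (some none)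
  have hq : |q| < 1 / 100 := hcoord (some none)
  have hMLq : ∀ K, M K + L K + q = 1 := by
    intro K
    rw [← hsum]
    simp only [M, L, q]
    rw [← sum_add_distrib, ← sum_add_distrib]
    apply sum_congr rfl
    intro i _
    by_cases a : hi K (t i)
    · have b : ¬ lo K (t i) := fun b => not_hi_lo a b
      have c : F (t i) (some none) = 0 := by
        unfold F
        simp only
        obtain ⟨k, _, hk⟩ := a
        rw [if_pos ⟨k, hk⟩]
      rw [if_pos a, if_neg b, c]
      ring
    · by_cases b : lo K (t i)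
      · have c : F (t i) (some none) = 0 := by
          unfold F
          simp only
          obtain ⟨k, _, hk⟩ := b
          rw [if_pos ⟨k, hk⟩]
        rw [if_neg a, if_pos b, c]
        ring
      · have c : F (t i) (some none) = 1 := by
          unfold F
          simp only
          rw [if_neg]
          rintro ⟨k, hk⟩
          rcases le_or_gt K k with h | h
          · exact a ⟨k, h, hk⟩
          · exact b ⟨k, h, hk⟩
        rw [if_neg a, if_neg b, c]
        ring
  have hM0 : ∀ K, 0 ≤ M K := by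
    intro K
    apply sum_nonneg
    intro i hi
    apply mul_nonneg (sub_nonneg.2 (hx i (mem_range.1 hi)).le)
    split_ifs <;> norm_num
  have hZ : ∀ K, ((Z n t K).card : ℝ) / 1000 ^ K * M K < 1 / 100 := by
    intro K
    have h2 := hcoord (some (some (K, Z n t K)))
    have h3 : ∑ i ∈ range n, (x (i + 1) - x i) * F (t i) (some (some (K, Z n t K))) =
        - (((Z n t K).card : ℝ) / 1000 ^ K * M K) := by
      simp only [M]
      rw [mul_sum, ← sum_neg_distrib]
      apply sum_congr rfl
      intro i hi'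
      unfold F
      simp only
      by_cases a : hi K (t i)
      · have hA : Z n t K ⊆ range (1000 ^ K) := filter_subset _ _
        have b : ⌊(1000 : ℝ) ^ K * t i⌋₊ ∉ Z n t K := by
          intro hb
          unfold Z at hb
          exact (mem_filter.1 hb).2 i (mem_range.1 hi') a rfl
        rw [if_pos ⟨hA, a⟩, if_neg b, if_pos a]
        ring
      · rw [if_neg (fun h => a h.2), if_neg a]
        ring
    rw [h3, abs_neg] at h2
    exact (le_abs_self _).trans_lt h2
  have hdich : ∀ K, M K < 11 / 1000 ∨ 97 / 100 < M K := by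
    intro K
    have hN : (0 : ℝ) < 1000 ^ K := by positivity
    have h2 := Z_card n x t h0 h1 hx ht K
    have h3 := low_card n x t hx ht K
    have h4 : (999 : ℝ) * (((range n).filter (fun i => lo K (t i))).card : ℝ) ≤ 2 * 1000 ^ K := by
      exact_mod_cast h3
    have h5 : ∑ i ∈ (range n).filter (fun i => lo K (t i)), (x (i + 1) - x i) = L K := by
      simp only [L]
      rw [sum_filter]
      apply sum_congr rfl
      intro i _
      split_ifs <;> ring
    rw [h5] at h2
    have h6 : L K - 5 / 1000 ≤ ((Z n t K).card : ℝ) / 1000 ^ K := by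
      rw [le_div_iff₀ hN]
      nlinarith
    have h7 := hZ K
    have h8 := hMLq K
    have h9 := abs_lt.1 hq
    have h10 : (L K - 5 / 1000) * M K < 1 / 100 :=
      (mul_le_mul_of_nonneg_right h6 (hM0 K)).trans_lt h7
    by_contra hcon2
    push Not at hcon2
    nlinarith [hcon2.1, hcon2.2, h9.1, h9.2, mul_nonneg (sub_nonneg.2 hcon2.1)
      (sub_nonneg.2 hcon2.2), mul_nonneg (hM0 K) (sub_nonneg.2 h9.2.le)]
  have hM0' : 97 / 100 < M 0 := by
    have h2 : L 0 = 0 := by
      apply sum_eq_zero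
      intro i _
      rw [if_neg, mul_zero]
      rintro ⟨k, hk, _⟩
      omega
    have h3 := hMLq 0
    have h4 := abs_lt.1 hq
    rw [h2] at h3
    linarith
  have hbig : ∃ K, M K < 11 / 1000 := by
    have h2 : ∀ i, ∃ K, ∀ K', K ≤ K' → ¬ hi K' (t i) := by
      intro i
      by_cases hex : ∃ k, Tag k (t i)
      · obtain ⟨k, hk⟩ := hex
        refine ⟨k + 1, ?_⟩
        rintro K' hK' ⟨k', hk', hk''⟩
        have := tag_unique hk hk''
        omega
      · exact ⟨0, fun K' _ ⟨k', _, hk'⟩ => hex ⟨k', hk'⟩⟩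
    choose κ hκ using h2
    refine ⟨(range n).sup κ, ?_⟩
    have h3 : M ((range n).sup κ) = 0 := by
      apply sum_eq_zero
      intro i hi'
      rw [if_neg (hκ i _ (Finset.le_sup hi')), mul_zero]
    rw [h3]
    norm_num
  obtain ⟨K, hK1, hK2⟩ : ∃ K, 97 / 100 < M K ∧ M (K + 1) < 11 / 1000 := by
    have h2 := Nat.find_spec hbig
    have h3 : Nat.find hbig ≠ 0 := by
      intro h
      rw [h] at h2
      linarith
    obtain ⟨K, hK⟩ := Nat.exists_eq_succ_of_ne_zero h3
    refine ⟨K, ?_, ?_⟩
    · have h4 := Nat.find_min hbig (m := K) (by omega)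
      rcases hdich K with h | h
      · exact absurd h h4
      · exact h
    · rw [hK] at h2
      exact h2
  -- the first coordinate
  have hfirst := hcoord none
  have h2 : ∑ i ∈ range n, (x (i + 1) - x i) * F (t i) none -
      (-1) ^ K * (M K - M (K + 1)) = ∑ i ∈ range n, (x (i + 1) - x i) *
        (F (t i) none - (-1) ^ K * ((if hi K (t i) then 1 else 0) -
          (if hi (K + 1) (t i) then 1 else 0))) := by
    simp only [M]
    rw [← sum_sub_distrib, mul_sum, ← sum_sub_distrib]
    apply sum_congr rfl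
    intro i _
    ring
  have h3 : |∑ i ∈ range n, (x (i + 1) - x i) * F (t i) none -
      (-1) ^ K * (M K - M (K + 1))| ≤ 1 - (M K - M (K + 1)) := by
    rw [h2]
    have h4 : 1 - (M K - M (K + 1)) = ∑ i ∈ range n, (x (i + 1) - x i) *
        (1 - ((if hi K (t i) then 1 else 0) - (if hi (K + 1) (t i) then 1 else 0))) := by
      have e : ∀ i, (x (i + 1) - x i) *
          (1 - ((if hi K (t i) then 1 else 0) - (if hi (K + 1) (t i) then 1 else 0))) =
          (x (i + 1) - x i) - ((x (i + 1) - x i) * (if hi K (t i) then 1 else 0) -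
            (x (i + 1) - x i) * (if hi (K + 1) (t i) then 1 else 0)) := by
        intro i; ring
      rw [sum_congr rfl (fun i _ => e i)]
      rw [sum_sub_distrib (fun i => x (i + 1) - x i), hsum,
        sum_sub_distrib (fun i => (x (i + 1) - x i) * (if hi K (t i) then (1 : ℝ) else 0))]
    rw [h4]
    refine (abs_sum_le_sum_abs _ _).trans (sum_le_sum fun i hi' => ?_)
    have h5 : 0 ≤ x (i + 1) - x i := sub_nonneg.2 (hx i (mem_range.1 hi')).le
    rw [abs_mul, abs_of_nonneg h5]
    apply mul_le_mul_of_nonneg_left _ h5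
    by_cases a : hi (K + 1) (t i)
    · have b : hi K (t i) := by
        obtain ⟨k, hk, hk'⟩ := a
        exact ⟨k, by omega, hk'⟩
      rw [if_pos a, if_pos b]
      simp only [sub_self, mul_zero, sub_zero]
      exact F_abs_none _
    · by_cases b : hi K (t i)
      · obtain ⟨k, hk, hk'⟩ := b
        have : k = K := by
          by_contra hne
          exact a ⟨k, by omega, hk'⟩
        subst this
        rw [if_neg a, if_pos ⟨k, le_rfl, hk'⟩, F_none hk']
        simp
      · rw [if_neg a, if_neg b]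
        simp only [sub_self, mul_zero, sub_zero]
        exact F_abs_none _
  have h6 : M K - M (K + 1) ≤ |∑ i ∈ range n, (x (i + 1) - x i) * F (t i) none| +
      |∑ i ∈ range n, (x (i + 1) - x i) * F (t i) none - (-1) ^ K * (M K - M (K + 1))| := by
    have h7 : |(-1 : ℝ) ^ K * (M K - M (K + 1))| = |M K - M (K + 1)| := by
      rw [abs_mul, abs_pow, abs_neg, abs_one, one_pow, one_mul]
    have h8 := abs_sub_abs_le_abs_sub ((-1 : ℝ) ^ K * (M K - M (K + 1)))
      (∑ i ∈ range n, (x (i + 1) - x i) * F (t i) none)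
    rw [h7, abs_sub_comm ((-1 : ℝ) ^ K * (M K - M (K + 1)))] at h8
    have h9 := le_abs_self (M K - M (K + 1))
    linarith
  linarith

end partition

theorem mem_of (p : ℕ → ℕ) (hp : ∀ k, k ≤ p k) (v : C0) (hv : ∀ k, ((-1 : ℝ) ^ (p k)) • e1 = v) :
    ∃ (n : ℕ → ℕ) (x t : ℕ → ℕ → ℝ),
          (∀ k, x k 0 = 0 ∧ x k (n k) = 1 ∧
            (∀ i, i < n k → x k i < x k (i+1)) ∧
            (∀ i, i < n k → x k i ≤ t k i ∧ t k i ≤ x k (i+1))) ∧
          (∀ ε : ℝ, 0 < ε → ∃ K : ℕ, ∀ k, K ≤ k → ∀ i, i < n k → x k (i+1) - x k i < ε) ∧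
          Filter.Tendsto
            (fun k => ∑ i ∈ Finset.range (n k), (x k (i+1) - x k i) • fn (t k i))
            Filter.atTop (nhds v) := by
  refine ⟨fun k => 1000 ^ (p k), fun k i => (i : ℝ) / 1000 ^ (p k),
    fun k i => (2 * i + 1) / (2 * 1000 ^ (p k)), ?_, ?_, ?_⟩
  · intro k
    have hN : (0 : ℝ) < 1000 ^ (p k) := by positivity
    refine ⟨by simp, ?_, ?_, ?_⟩
    · push_cast
      exact div_self hN.ne'
    · intro i _
      apply div_lt_div_of_pos_right _ hN
      push_cast
      linarith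
    · intro i _
      constructor
      · rw [div_le_div_iff₀ hN (by positivity)]
        nlinarith
      · rw [div_le_div_iff₀ (by positivity) hN]
        push_cast
        nlinarith
  · intro ε hε
    obtain ⟨K, hK⟩ := exists_pow_lt_of_lt_one hε (by norm_num : (1 / 1000 : ℝ) < 1)
    refine ⟨K, fun k hk i _ => ?_⟩
    have h1 : ((i + 1 : ℕ) : ℝ) / 1000 ^ (p k) - (i : ℝ) / 1000 ^ (p k) = (1 / 1000) ^ (p k) := by
      push_cast
      rw [one_div, inv_pow]
      ring
    rw [h1]
    exact (pow_le_pow_of_le_one (by norm_num) (by norm_num) (hk.trans (hp k))).trans_lt hK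
  · refine tendsto_const_nhds.congr (fun k => ?_)
    rw [uniform_sum, hv k]

theorem mem_pos : ∀ k : ℕ, ((-1 : ℝ) ^ (2 * k)) • e1 = e1 := by
  intro k
  rw [pow_mul]
  norm_num

theorem mem_neg : ∀ k : ℕ, ((-1 : ℝ) ^ (2 * k + 1)) • e1 = -e1 := by
  intro k
  rw [pow_succ, pow_mul]
  have : (((-1 : ℝ) ^ 2) ^ k * -1) = -1 := by norm_num
  rw [this]
  ext n
  change (-1 : ℝ) * e1 n = -(e1 n)
  ring

end

end Pool.Agent.H8.S1832aux
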