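import Mathlib

set_option autoImplicit false

namespace Pool.Agent.H8.S1860aux

open Filter Topology MeasureTheory Set
open scoped BoundedContinuousFunction

noncomputable section

abbrev X : Type := (ℕ × ℕ) →ᵇ ℂ

/-- the diagonal entries -/
def lam (n : ℕ × ℕ) : ℂ :=
  ((-(1 / 4) ^ n.1 : ℝ) : ℂ) + ((if n.2 < 4 ^ n.1 then (n.2 : ℝ) / 4 ^ n.1 else 0 : ℝ) : ℂ) * Complex.I

theorem lam_re (n : ℕ × ℕ) : (lam n).re = -(1 / 4) ^ n.1 := by
  unfold lam
  rw [Complex.add_re, Complex.ofReal_re, Complex.re_ofReal_mul, Complex.I_re, mul_zero, add_zero]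

theorem lam_bound (n : ℕ × ℕ) : ‖lam n‖ ≤ 2 := by
  unfold lam
  refine (norm_add_le _ _).trans ?_
  rw [norm_mul, Complex.norm_I, mul_one, Complex.norm_real, Complex.norm_real]
  have h1 : ‖(-(1 / 4) ^ n.1 : ℝ)‖ ≤ 1 := by
    rw [norm_neg, Real.norm_eq_abs, abs_of_nonneg (by positivity)]
    exact pow_le_one₀ (by norm_num) (by norm_num)
  have h2 : ‖(if n.2 < 4 ^ n.1 then (n.2 : ℝ) / 4 ^ n.1 else 0 : ℝ)‖ ≤ 1 := by
    split_ifs with h
    · rw [Real.norm_eq_abs, abs_of_nonneg (by positivity), div_le_one (by positivity)]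
      exact_mod_cast h.le
    · simp
  linarith

def Lam : X := BoundedContinuousFunction.ofNormedAddCommGroupDiscrete lam 2 lam_bound

def T (t : ℝ) : X →L[ℂ] X := ContinuousLinearMap.mul ℂ X (NormedSpace.exp ((t : ℂ) • Lam))

def evr (n : ℕ × ℕ) : X →+* ℂ where
  toFun g := g n
  map_one' := rfl
  map_mul' _ _ := rfl
  map_zero' := rfl
  map_add' _ _ := rfl

theorem exp_apply (t : ℝ) (n : ℕ × ℕ) :
    (NormedSpace.exp ((t : ℂ) • Lam) : X) n = Complex.exp (t * lam n) := by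
  have h1 : Continuous (evr n) := (BoundedContinuousFunction.evalCLM ℂ n).continuous
  have h2 := NormedSpace.map_exp (evr n) h1 ((t : ℂ) • Lam)
  rw [Complex.exp_eq_exp_ℂ]
  exact h2

theorem T_apply (t : ℝ) (v : X) (n : ℕ × ℕ) : (T t v) n = Complex.exp (t * lam n) * v n := by
  change (NormedSpace.exp ((t : ℂ) • Lam) : X) n * v n = _
  rw [exp_apply]

theorem T_zero : T 0 = 1 := by
  ext v n
  rw [T_apply]
  simp

theorem T_add (s t : ℝ) : T (s + t) = T s * T t := by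
  ext v n
  rw [T_apply, mul_apply_eq_comp, T_apply, T_apply, ← mul_assoc, ← Complex.exp_add]
  congr 2
  push_cast
  ring

theorem T_cont (v : X) : Continuous (fun t : ℝ => T t v) := by
  have h1 : Continuous (fun t : ℝ => (NormedSpace.exp ((t : ℂ) • Lam) : X)) := by
    apply NormedSpace.exp_continuous.comp
    exact (Complex.continuous_ofReal).smul continuous_const
  exact h1.mul continuous_const

theorem T_le (t : ℝ) (ht : 0 ≤ t) (v : X) : ‖T t v‖ ≤ ‖v‖ := by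
  rw [BoundedContinuousFunction.norm_le (norm_nonneg _)]
  intro n
  rw [T_apply, norm_mul, Complex.norm_exp]
  have h1 : ((t : ℂ) * lam n).re ≤ 0 := by
    rw [Complex.re_ofReal_mul, lam_re]
    have : (0 : ℝ) < (1 / 4) ^ n.1 := by positivity
    nlinarith
  have h2 : Real.exp ((t : ℂ) * lam n).re ≤ 1 := Real.exp_le_one_iff.2 h1
  have h3 := v.norm_coe_le_norm n
  calc _ ≤ 1 * ‖v n‖ := mul_le_mul_of_nonneg_right h2 (norm_nonneg _)
    _ ≤ ‖v‖ := by rw [one_mul]; exact h3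

theorem T_norm (t : ℝ) (ht : 0 ≤ t) : ‖T t‖ ≤ 1 :=
  ContinuousLinearMap.opNorm_le_bound _ zero_le_one (fun v => by rw [one_mul]; exact T_le t ht v)

/-- the vector -/
def x : X := BoundedContinuousFunction.ofNormedAddCommGroupDiscrete
  (fun n : ℕ × ℕ => ((if n.2 < 4 ^ n.1 then (1 / 2) ^ n.1 else 0 : ℝ) : ℂ)) 1 (by
    intro n
    rw [Complex.norm_real]
    split_ifs with h
    · rw [Real.norm_eq_abs, abs_of_nonneg (by positivity)]
      exact pow_le_one₀ (by norm_num) (by norm_num)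
    · simp)

theorem x_apply (n : ℕ × ℕ) :
    x n = ((if n.2 < 4 ^ n.1 then (1 / 2) ^ n.1 else 0 : ℝ) : ℂ) := rfl

theorem x_norm (n : ℕ × ℕ) : ‖x n‖ ≤ (1 / 2) ^ n.1 := by
  rw [x_apply, Complex.norm_real]
  have : (0 : ℝ) < (1 / 2) ^ n.1 := by positivity
  split_ifs with h
  · rw [Real.norm_eq_abs, abs_of_nonneg this.le]
  · simpa using this.le

theorem stable : Tendsto (fun t : ℝ => T t x) atTop (𝓝 0) := by
  rw [Metric.tendsto_atTop]
  intro ε hε
  obtain ⟨J, hJ⟩ := exists_pow_lt_of_lt_one (half_pos hε) (by norm_num : (1 / 2 : ℝ) < 1)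
  have h1 : Tendsto (fun t : ℝ => Real.exp (-((1 / 4) ^ J * t))) atTop (𝓝 0) := by
    apply Real.tendsto_exp_neg_atTop_nhds_zero.comp
    exact tendsto_id.const_mul_atTop (by positivity)
  obtain ⟨t0, ht0⟩ := ((h1.eventually (gt_mem_nhds (half_pos hε))).and
    (eventually_ge_atTop 0)).exists_forall_of_atTop
  refine ⟨t0, fun t ht => ?_⟩
  obtain ⟨h2, h3⟩ := ht0 t ht
  rw [dist_zero_right]
  refine lt_of_le_of_lt ?_ (half_lt_self hε)
  rw [BoundedContinuousFunction.norm_le (half_pos hε).le]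
  intro n
  rw [T_apply, norm_mul, Complex.norm_exp, Complex.re_ofReal_mul, lam_re]
  have h4 := x_norm n
  have h5 : (0 : ℝ) < (1 / 4) ^ n.1 := by positivity
  rcases le_or_gt J n.1 with h | h
  · have h6 : Real.exp (t * -(1 / 4) ^ n.1) ≤ 1 := by
      apply Real.exp_le_one_iff.2
      nlinarith
    have h7 : (1 / 2 : ℝ) ^ n.1 ≤ (1 / 2) ^ J := pow_le_pow_of_le_one (by norm_num) (by norm_num) h
    calc _ ≤ 1 * ‖x n‖ := mul_le_mul_of_nonneg_right h6 (norm_nonneg _)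
      _ ≤ ε / 2 := by rw [one_mul]; linarith
  · have h7 : (1 / 4 : ℝ) ^ J ≤ (1 / 4) ^ n.1 :=
      pow_le_pow_of_le_one (by norm_num) (by norm_num) h.le
    have h6 : Real.exp (t * -(1 / 4) ^ n.1) ≤ Real.exp (-((1 / 4) ^ J * t)) := by
      apply Real.exp_le_exp.2
      nlinarith
    have h8 : ‖x n‖ ≤ 1 := h4.trans (pow_le_one₀ (by norm_num) (by norm_num))
    calc _ ≤ Real.exp (t * -(1 / 4) ^ n.1) * 1 :=
          mul_le_mul_of_nonneg_left h8 (Real.exp_pos _).le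
      _ ≤ ε / 2 := by rw [mul_one]; linarith

theorem integ (a s : ℝ) (ha : 0 < a) (v : X) :
    IntegrableOn (fun t : ℝ => Complex.exp (-(((a : ℂ) + (s : ℂ) * Complex.I) * (t : ℂ))) • T t v)
      (Ioi (0 : ℝ)) := by
  have h1 : IntegrableOn (fun t : ℝ => Real.exp (-a * t) * ‖v‖) (Ioi (0 : ℝ)) :=
    (exp_neg_integrableOn_Ioi 0 ha).mul_const _
  refine Integrable.mono' h1 ?_ ?_
  · have hc : Continuous (fun t : ℝ =>
        Complex.exp (-(((a : ℂ) + (s : ℂ) * Complex.I) * (t : ℂ))) • T t v) := by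
      have e1 : Continuous (fun t : ℝ =>
          Complex.exp (-(((a : ℂ) + (s : ℂ) * Complex.I) * (t : ℂ)))) := by fun_prop
      exact e1.smul (T_cont v)
    exact hc.aestronglyMeasurable
  · filter_upwards [ae_restrict_mem measurableSet_Ioi] with t ht
    rw [norm_smul, Complex.norm_exp]
    have h2 : (-(((a : ℂ) + (s : ℂ) * Complex.I) * (t : ℂ))).re = -a * t := by
      simp
    rw [h2]
    exact mul_le_mul_of_nonneg_left (T_le t (le_of_lt ht) v) (Real.exp_pos _).le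

theorem resolvent (a s : ℝ) (ha : 0 < a) (v : X) (n : ℕ × ℕ) :
    (∫ t in Ioi (0 : ℝ), Complex.exp (-(((a : ℂ) + (s : ℂ) * Complex.I) * (t : ℂ))) • T t v) n =
      v n / ((a : ℂ) + (s : ℂ) * Complex.I - lam n) := by
  have h1 := ContinuousLinearMap.integral_comp_comm
    (BoundedContinuousFunction.evalCLM ℂ n) (integ a s ha v)
  change (BoundedContinuousFunction.evalCLM ℂ n) _ = _
  rw [← h1]
  have h2 : ∀ t : ℝ, (BoundedContinuousFunction.evalCLM ℂ n)
      (Complex.exp (-(((a : ℂ) + (s : ℂ) * Complex.I) * (t : ℂ))) • T t v) =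
      Complex.exp ((lam n - ((a : ℂ) + (s : ℂ) * Complex.I)) * t) * v n := by
    intro t
    change Complex.exp (-(((a : ℂ) + (s : ℂ) * Complex.I) * (t : ℂ))) * (T t v) n = _
    rw [T_apply, ← mul_assoc, ← Complex.exp_add]
    congr 2
    ring
  simp_rw [h2]
  have hre : (lam n - ((a : ℂ) + (s : ℂ) * Complex.I)).re < 0 := by
    have : (0 : ℝ) < (1 / 4) ^ n.1 := by positivity
    rw [Complex.sub_re, lam_re]
    simp only [Complex.add_re, Complex.ofReal_re, Complex.mul_re, Complex.I_re, mul_zero,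
      Complex.ofReal_im, Complex.I_im, mul_one, sub_zero, add_zero]
    linarith
  rw [integral_mul_const, integral_exp_mul_complex_Ioi hre]
  have hne : lam n - ((a : ℂ) + (s : ℂ) * Complex.I) ≠ 0 := by
    intro h
    rw [h] at hre
    simp at hre
  have hne' : (a : ℂ) + (s : ℂ) * Complex.I - lam n ≠ 0 := by
    intro h
    apply hne
    linear_combination -h
  simp only [Complex.ofReal_zero, mul_zero, Complex.exp_zero]
  field_simp
  ring

theorem lower (j : ℕ) (s : ℝ) (hs : s ∈ Ico (0 : ℝ) 1) :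
    (4 : ℝ) ^ j / 5 ≤ ‖∫ t in Ioi (0 : ℝ),
      Complex.exp (-(((((1 / 4) ^ j : ℝ) : ℂ) + (s : ℂ) * Complex.I) * (t : ℂ))) • T t x‖ ^ 2 := by
  have h4 : (0 : ℝ) < 4 ^ j := by positivity
  obtain ⟨i, hi1, hi2⟩ : ∃ i : ℕ, (i : ℝ) ≤ 4 ^ j * s ∧ 4 ^ j * s < i + 1 :=
    ⟨⌊(4 : ℝ) ^ j * s⌋₊, Nat.floor_le (mul_nonneg h4.le hs.1), Nat.lt_floor_add_one _⟩
  have hi3 : i < 4 ^ j := by
    have : (i : ℝ) < 4 ^ j := by nlinarith [hs.2]
    exact_mod_cast this
  have h1 := BoundedContinuousFunction.norm_coe_le_norm (∫ t in Ioi (0 : ℝ),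
      Complex.exp (-(((((1 / 4) ^ j : ℝ) : ℂ) + (s : ℂ) * Complex.I) * (t : ℂ))) • T t x) (j, i)
  rw [resolvent _ s (by positivity)] at h1
  refine le_trans ?_ (pow_le_pow_left₀ (norm_nonneg _) h1 2)
  rw [norm_div, div_pow]
  have hx : ‖x (j, i)‖ ^ 2 = (1 / 4) ^ j := by
    rw [x_apply, Complex.norm_real]
    simp only [hi3, if_true]
    rw [Real.norm_eq_abs, sq_abs, ← pow_mul, mul_comm, pow_mul]
    norm_num
  have hd : ‖((((1 / 4) ^ j : ℝ) : ℂ) + (s : ℂ) * Complex.I - lam (j, i))‖ ^ 2 =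
      (2 * (1 / 4) ^ j) ^ 2 + (s - i / 4 ^ j) ^ 2 := by
    rw [← Complex.normSq_eq_norm_sq, Complex.normSq_apply]
    unfold lam
    simp only [hi3, if_true]
    simp only [Complex.sub_re, Complex.add_re, Complex.mul_re, Complex.sub_im, Complex.add_im,
      Complex.mul_im, Complex.ofReal_re, Complex.ofReal_im, Complex.I_re, Complex.I_im]
    ring
  rw [hx, hd]
  have h5 : (1 / 4 : ℝ) ^ j = 1 / 4 ^ j := by rw [one_div, inv_pow, one_div]
  have h6 : 0 ≤ s - i / 4 ^ j := by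
    rw [sub_nonneg, div_le_iff₀ h4]
    linarith
  have h7 : s - i / 4 ^ j ≤ 1 / 4 ^ j := by
    rw [sub_le_iff_le_add, ← add_div, le_div_iff₀ h4]
    linarith
  have h8 : (s - i / 4 ^ j) ^ 2 ≤ (1 / 4 ^ j) ^ 2 := pow_le_pow_left₀ h6 h7 2
  rw [h5, le_div_iff₀ (by positivity)]
  have h9 : (2 * (1 / 4 ^ j)) ^ 2 + (s - i / 4 ^ j) ^ 2 ≤ 5 * (1 / (4 : ℝ) ^ j) ^ 2 := by
    nlinarith
  calc (4 : ℝ) ^ j / 5 * ((2 * (1 / 4 ^ j)) ^ 2 + (s - i / 4 ^ j) ^ 2) ≤
      (4 : ℝ) ^ j / 5 * (5 * (1 / (4 : ℝ) ^ j) ^ 2) :=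
        mul_le_mul_of_nonneg_left h9 (by positivity)
    _ = 1 / 4 ^ j := by field_simp

theorem not_star : ¬ Tendsto
            (fun a : ℝ => ENNReal.ofReal a *
              ∫⁻ s : ℝ,
                ((‖∫ t in Set.Ioi (0 : ℝ),
                    Complex.exp (-(((a : ℂ) + (s : ℂ) * Complex.I) * (t : ℂ))) • T t x‖₊ : ENNReal)) ^ 2)
            (𝓝[>] (0 : ℝ)) (𝓝 0) := by
  intro h
  have h1 : Tendsto (fun j : ℕ => (1 / 4 : ℝ) ^ j) atTop (𝓝[>] 0) := by
    rw [tendsto_nhdsWithin_iff]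
    refine ⟨tendsto_pow_atTop_nhds_zero_of_lt_one (by norm_num) (by norm_num), ?_⟩
    exact Eventually.of_forall (fun j => by
      have : (0 : ℝ) < (1 / 4) ^ j := by positivity
      exact this)
  have h2 := h.comp h1
  have h3 : ∀ j : ℕ, ENNReal.ofReal (1 / 5) ≤ ENNReal.ofReal ((1 / 4) ^ j) *
              ∫⁻ s : ℝ,
                ((‖∫ t in Set.Ioi (0 : ℝ),
                    Complex.exp (-(((((1 / 4) ^ j : ℝ) : ℂ) + (s : ℂ) * Complex.I) * (t : ℂ))) •
                      T t x‖₊ : ENNReal)) ^ 2 := by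
    intro j
    have h4 : ENNReal.ofReal ((4 : ℝ) ^ j / 5) ≤ ∫⁻ s : ℝ,
                ((‖∫ t in Set.Ioi (0 : ℝ),
                    Complex.exp (-(((((1 / 4) ^ j : ℝ) : ℂ) + (s : ℂ) * Complex.I) * (t : ℂ))) •
                      T t x‖₊ : ENNReal)) ^ 2 := by
      refine le_trans ?_ (setLIntegral_le_lintegral (Ico (0 : ℝ) 1) _)
      have h5 : ENNReal.ofReal ((4 : ℝ) ^ j / 5) =
          ∫⁻ _ in Ico (0 : ℝ) 1, ENNReal.ofReal ((4 : ℝ) ^ j / 5) := by
        rw [setLIntegral_const, Real.volume_Ico]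
        simp
      rw [h5]
      refine setLIntegral_mono' measurableSet_Ico (fun s hs => ?_)
      have h6 := lower j s hs
      rw [← enorm_eq_nnnorm, ← ofReal_norm, ← ENNReal.ofReal_pow (norm_nonneg _)]
      exact ENNReal.ofReal_le_ofReal h6
    calc ENNReal.ofReal (1 / 5) = ENNReal.ofReal ((1 / 4) ^ j) * ENNReal.ofReal ((4 : ℝ) ^ j / 5) := by
          rw [← ENNReal.ofReal_mul (by positivity)]
          congr 1
          rw [one_div_pow]
          field_simp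
      _ ≤ _ := mul_le_mul_right h4 _
  have h4 : ENNReal.ofReal (1 / 5) ≤ 0 := ge_of_tendsto' h2 h3
  have h5 : (0 : ENNReal) < ENNReal.ofReal (1 / 5) := ENNReal.ofReal_pos.2 (by norm_num)
  exact absurd h4 (not_le.2 h5)

end

end Pool.Agent.H8.S1860aux
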