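import Mathlib

set_option autoImplicit false

namespace Pool.Agent.H8.S2956aux

open Set Topology unitInterval

/-- discrete index set -/
def J : Type := I × ℝ

instance : TopologicalSpace J := ⊥
instance : DiscreteTopology J := ⟨rfl⟩

def mk (s : I) (r : ℝ) : J := (s, r)

theorem mk_inj {s s' : I} {r r' : ℝ} (h : mk s r = mk s' r') : s = s' ∧ r = r' := by
  unfold mk at h
  exact Prod.mk.injEq .. ▸ h

/-- the space -/
abbrev X : Type := I × OnePoint J × OnePoint J

theorem fin_compl (O : Set (OnePoint J)) (hO : IsOpen O) (h : OnePoint.infty ∈ O) :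
    {j : J | (j : OnePoint J) ∉ O}.Finite := by
  have := ((OnePoint.isOpen_iff_of_mem h).1 hO).2
  exact this.finite_of_discrete

theorem nhd1 (U : Set X) (hU : IsOpen U) (s : I) (j : OnePoint J)
    (h : ((s, j, OnePoint.infty) : X) ∈ U) :
    ∃ (k : ℕ) (F : Set J), F.Finite ∧ ∀ t : I, dist t s < 1 / ((k : ℝ) + 1) →
      ∀ b : J, b ∉ F → ((t, j, (b : OnePoint J)) : X) ∈ U := by
  rw [isOpen_prod_iff] at hU
  obtain ⟨A, B, hA, hB, hs, hj, hAB⟩ := hU s (j, OnePoint.infty) h
  rw [isOpen_prod_iff] at hB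
  obtain ⟨C, D, hC, hD, hj1, hj2, hCD⟩ := hB j OnePoint.infty hj
  obtain ⟨ε, hε, hεA⟩ := Metric.isOpen_iff.1 hA s hs
  obtain ⟨k, hk⟩ := exists_nat_one_div_lt hε
  refine ⟨k, {b : J | (b : OnePoint J) ∉ D}, fin_compl D hD hj2, ?_⟩
  intro t ht b hb
  apply hAB
  refine ⟨hεA (ht.trans hk), hCD ⟨hj1, ?_⟩⟩
  by_contra hcon
  exact hb hcon

theorem nhd2 (U : Set X) (hU : IsOpen U) (s : I) (j : OnePoint J)
    (h : ((s, OnePoint.infty, j) : X) ∈ U) :
    {b : J | ((s, (b : OnePoint J), j) : X) ∉ U}.Finite := by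
  have hc : Continuous (fun b : OnePoint J => ((s, b, j) : X)) := by fun_prop
  exact fin_compl _ (hU.preimage hc) h

theorem nhd2' (U : Set X) (hU : IsOpen U) (s : I)
    (h : ((s, OnePoint.infty, OnePoint.infty) : X) ∈ U) :
    {b : J | ((s, (b : OnePoint J), OnePoint.infty) : X) ∉ U}.Finite := nhd2 U hU s _ h

def R (U : Set X) (s : I) : Set ℝ := {r | ((s, (mk s r : OnePoint J), OnePoint.infty) : X) ∈ U}
def T (U : Set X) (s : I) : Set ℝ := {r | ((s, OnePoint.infty, (mk s r : OnePoint J)) : X) ∈ U}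

theorem claim (U V : Set X) (hU : IsOpen U) (hV : IsOpen V) (hUV : Disjoint U V) (s : I)
    (hR : ¬ (R U s).Countable) : ∃ ε : ℝ, 0 < ε ∧ ∀ t : I, dist t s < ε → (T V t).Countable := by
  have h1 : ∀ r ∈ R U s, ∃ (k : ℕ) (F : Set J), F.Finite ∧ ∀ t : I, dist t s < 1 / ((k : ℝ) + 1) →
      ∀ b : J, b ∉ F → ((t, (mk s r : OnePoint J), (b : OnePoint J)) : X) ∈ U :=
    fun r hr => nhd1 U hU s _ hr
  choose! k F hF hk using h1
  have h2 : ∃ m : ℕ, ¬ ({r ∈ R U s | k r = m}).Countable := by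
    by_contra hcon
    push Not at hcon
    apply hR
    have : R U s = ⋃ m, {r ∈ R U s | k r = m} := by
      ext r
      simp
    rw [this]
    exact countable_iUnion hcon
  obtain ⟨m, hm⟩ := h2
  have h3 : ({r ∈ R U s | k r = m}).Infinite := by
    intro hfin
    exact hm hfin.countable
  let f := h3.natEmbedding
  refine ⟨1 / ((m : ℝ) + 1), by positivity, ?_⟩
  intro t ht
  by_contra hT
  have h4 : ({r : ℝ | mk t r ∈ ⋃ i : ℕ, F (f i).1}).Countable := by
    have h5 : (⋃ i : ℕ, F (f i).1).Countable :=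
      countable_iUnion (fun i => (hF _ (f i).2.1).countable)
    exact h5.preimage (fun r r' h => (mk_inj h).2)
  obtain ⟨α, hα, hα'⟩ : ∃ α ∈ T V t, α ∉ {r : ℝ | mk t r ∈ ⋃ i : ℕ, F (f i).1} := by
    by_contra hcon
    push Not at hcon
    exact hT (h4.mono hcon)
  have h6 := nhd2 V hV t _ hα
  have h7 : ∃ i : ℕ, ((t, ((mk s (f i).1 : J) : OnePoint J), (mk t α : OnePoint J)) : X) ∈ V := by
    by_contra hcon
    push Not at hcon
    have hinj : Function.Injective (fun i : ℕ => mk s (f i).1) := by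
      intro i i' hi
      exact f.injective (Subtype.ext (mk_inj hi).2)
    have := (Set.infinite_range_of_injective hinj)
    apply this
    refine h6.subset ?_
    rintro _ ⟨i, rfl⟩
    exact hcon i
  obtain ⟨i, hi⟩ := h7
  have h8 : ((t, ((mk s (f i).1 : J) : OnePoint J), (mk t α : OnePoint J)) : X) ∈ U := by
    apply hk _ (f i).2.1 t
    · rw [(f i).2.2]
      exact ht
    · intro hmem
      exact hα' (mem_iUnion.2 ⟨i, hmem⟩)
  exact Set.disjoint_left.1 hUV h8 hi

def Z : Set X := {x | ∃ (s : I) (r : ℝ), x = (s, (mk s r : OnePoint J), OnePoint.infty)} ∪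
  {x | ∃ (s : I) (r : ℝ), x = (s, OnePoint.infty, (mk s r : OnePoint J))}

theorem Z_disc : ∀ z ∈ Z, ∃ O : Set X, IsOpen O ∧ z ∈ O ∧ ∀ w ∈ Z, w ∈ O → w = z := by
  rintro z (⟨s, r, rfl⟩ | ⟨s, r, rfl⟩)
  · refine ⟨{x : X | x.2.1 = (mk s r : OnePoint J)}, ?_, rfl, ?_⟩
    · have : IsOpen ({(mk s r : OnePoint J)} : Set (OnePoint J)) := by
        have := OnePoint.isOpenEmbedding_coe.isOpenMap {mk s r} (isOpen_discrete _)
        simpa using this
      exact this.preimage (by fun_prop : Continuous (fun x : X => x.2.1))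
    · rintro w (⟨s', r', rfl⟩ | ⟨s', r', rfl⟩) hw
      · simp only [mem_ofPred_eq] at hw
        have := OnePoint.coe_injective hw
        obtain ⟨rfl, rfl⟩ := mk_inj this
        rfl
      · simp only [mem_ofPred_eq] at hw
        exact absurd hw (OnePoint.infty_ne_coe _)
  · refine ⟨{x : X | x.2.2 = (mk s r : OnePoint J)}, ?_, rfl, ?_⟩
    · have : IsOpen ({(mk s r : OnePoint J)} : Set (OnePoint J)) := by
        have := OnePoint.isOpenEmbedding_coe.isOpenMap {mk s r} (isOpen_discrete _)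
        simpa using this
      exact this.preimage (by fun_prop : Continuous (fun x : X => x.2.2))
    · rintro w (⟨s', r', rfl⟩ | ⟨s', r', rfl⟩) hw
      · simp only [mem_ofPred_eq] at hw
        exact absurd hw (OnePoint.infty_ne_coe _)
      · simp only [mem_ofPred_eq] at hw
        have := OnePoint.coe_injective hw
        obtain ⟨rfl, rfl⟩ := mk_inj this
        rfl

theorem Z_open (W : Set X) (hW : W ⊆ Z) : ∃ O : Set X, IsOpen O ∧ W = Z ∩ O := by
  choose! O h1 h2 h3 using Z_disc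
  refine ⟨⋃ z ∈ W, O z, isOpen_biUnion (fun z hz => h1 z (hW hz)), ?_⟩
  ext x
  simp only [mem_inter_iff, mem_iUnion]
  constructor
  · intro hx
    exact ⟨hW hx, x, hx, h2 x (hW hx)⟩
  · rintro ⟨hx, z, hz, hxz⟩
    rw [h3 z (hW hz) x hx hxz]
    exact hz

theorem no_part (U V : Set X) (hU : IsOpen U) (hV : IsOpen V) (hUV : Disjoint U V)
    (h0 : ((0, OnePoint.infty, OnePoint.infty) : X) ∈ U)
    (h1 : ((1, OnePoint.infty, OnePoint.infty) : X) ∈ V) (hZ : Z ⊆ U ∪ V) : False := by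
  have hunc : ¬ (univ : Set ℝ).Countable := by
    exact Cardinal.not_countable_real
  have hR : ∀ s, R U s ∪ R V s = univ := by
    intro s
    rw [eq_univ_iff_forall]
    intro r
    exact hZ (Or.inl ⟨s, r, rfl⟩)
  have hT : ∀ s, T U s ∪ T V s = univ := by
    intro s
    rw [eq_univ_iff_forall]
    intro r
    exact hZ (Or.inr ⟨s, r, rfl⟩)
  let A : Set I := {s | ¬ (R U s).Countable}
  let B : Set I := {s | ¬ (R V s).Countable}
  have hT' : ∀ s, ¬ ((T U s).Countable ∧ (T V s).Countable) := by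
    rintro s ⟨ha, hb⟩
    apply hunc
    rw [← hT s]
    exact ha.union hb
  have hR' : ∀ s, s ∈ A ∨ s ∈ B := by
    intro s
    by_contra hcon
    push Not at hcon
    have ha : (R U s).Countable := by
      by_contra h; exact hcon.1 h
    have hb : (R V s).Countable := by
      by_contra h; exact hcon.2 h
    apply hunc
    rw [← hR s]
    exact ha.union hb
  have hA : IsOpen A := by
    rw [Metric.isOpen_iff]
    intro s hs
    obtain ⟨ε, hε, hh⟩ := claim U V hU hV hUV s hs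
    refine ⟨ε, hε, ?_⟩
    intro t ht
    rcases hR' t with h | h
    · exact h
    · exfalso
      obtain ⟨ε', hε', hh'⟩ := claim V U hV hU hUV.symm t h
      exact hT' t ⟨hh' t (by rw [dist_self]; exact hε'), hh t ht⟩
  have hB : IsOpen B := by
    rw [Metric.isOpen_iff]
    intro s hs
    obtain ⟨ε, hε, hh⟩ := claim V U hV hU hUV.symm s hs
    refine ⟨ε, hε, ?_⟩
    intro t ht
    rcases hR' t with h | h
    · exfalso
      obtain ⟨ε', hε', hh'⟩ := claim U V hU hV hUV t h
      exact hT' t ⟨hh t ht, hh' t (by rw [dist_self]; exact hε')⟩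
    · exact h
  have hAB : Disjoint A B := by
    rw [Set.disjoint_left]
    intro s hs hs'
    obtain ⟨ε, hε, hh⟩ := claim U V hU hV hUV s hs
    obtain ⟨ε', hε', hh'⟩ := claim V U hV hU hUV.symm s hs'
    exact hT' s ⟨hh' s (by rw [dist_self]; exact hε'), hh s (by rw [dist_self]; exact hε)⟩
  have hcof : ∀ (W : Set X) (s : I), IsOpen W →
      ((s, OnePoint.infty, OnePoint.infty) : X) ∈ W → ¬ (R W s).Countable := by
    intro W s hW hs hc
    have hf := nhd2' W hW s hs
    apply hunc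
    have : (univ : Set ℝ) ⊆ R W s ∪ (mk s) ⁻¹' {b : J | ((s, (b : OnePoint J), OnePoint.infty) : X) ∉ W} := by
      intro r _
      by_cases h : r ∈ R W s
      · exact Or.inl h
      · exact Or.inr h
    refine (hc.union ?_).mono this
    exact hf.countable.preimage (fun r r' h => (mk_inj h).2)
  have h0A : (0 : I) ∈ A := hcof U 0 hU h0
  have h1B : (1 : I) ∈ B := hcof V 1 hV h1
  have hpre : IsPreconnected (univ : Set I) := isPreconnected_univ
  obtain ⟨x, -, hx⟩ := hpre A B hA hB (fun s _ => hR' s) ⟨0, mem_univ _, h0A⟩ ⟨1, mem_univ _, h1B⟩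
  exact Set.disjoint_left.1 hAB hx.1 hx.2

/-- the dimension predicate -/
def D : ℕ → Set X → Set X → Prop
  | 0 => fun Y A => A ∩ Y = ∅
  | (k + 1) => fun Y A => (A ∩ Y = ∅ ∨
          ∀ F G : Set X, (∃ C : Set X, IsClosed C ∧ F = Y ∩ C) →
            (∃ C : Set X, IsClosed C ∧ G = Y ∩ C) → Disjoint F G →
            ∃ S U V : Set X, S ⊆ Y ∧ (∃ C : Set X, IsClosed C ∧ S = Y ∩ C) ∧
              (∃ O : Set X, IsOpen O ∧ U = Y ∩ O) ∧
              (∃ O : Set X, IsOpen O ∧ V = Y ∩ O) ∧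
              Disjoint U V ∧ Y \ S = U ∪ V ∧ F ⊆ U ∧ G ⊆ V ∧
              D k S (A ∩ S))

theorem D_Z : D 1 Z Z := by
  right
  rintro F G ⟨C, hC, rfl⟩ ⟨C', hC', rfl⟩ hd
  refine ⟨∅, Z ∩ C, Z \ (Z ∩ C), empty_subset _, ⟨∅, isClosed_empty, by simp⟩,
    Z_open _ inter_subset_left, Z_open _ sdiff_subset, disjoint_sdiff_right, ?_, subset_rfl, ?_, ?_⟩
  · rw [union_sdiff_self, sdiff_empty, union_eq_self_of_subset_left inter_subset_left]
  · intro x hx
    refine ⟨hx.1, fun h => ?_⟩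
    exact Set.disjoint_left.1 hd h hx
  · change (Z ∩ ∅) ∩ ∅ = ∅
    simp

theorem not_D : ¬ D 1 univ Z := by
  rintro (h | h)
  · have : ((0, (mk 0 0 : OnePoint J), OnePoint.infty) : X) ∈ Z ∩ univ :=
      ⟨Or.inl ⟨0, 0, rfl⟩, mem_univ _⟩
    rw [h] at this
    exact this
  · obtain ⟨S, U, V, -, -, ⟨O, hO, rfl⟩, ⟨O', hO', rfl⟩, hd, hS, hF, hG, hDS⟩ :=
      h {((0, OnePoint.infty, OnePoint.infty) : X)} {((1, OnePoint.infty, OnePoint.infty) : X)}
      ⟨_, isClosed_singleton, (univ_inter _).symm⟩ ⟨_, isClosed_singleton, (univ_inter _).symm⟩ (by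
        rw [Set.disjoint_singleton]
        intro hc
        have := congrArg Prod.fst hc
        exact zero_ne_one this)
    change (Z ∩ S) ∩ S = ∅ at hDS
    rw [univ_inter] at hd hS hF
    rw [univ_inter] at hd hS hG
    refine no_part O O' hO hO' hd (hF rfl) (hG rfl) ?_
    intro z hz
    rw [← hS]
    refine ⟨mem_univ _, fun hzS => ?_⟩
    have : z ∈ (Z ∩ S) ∩ S := ⟨⟨hz, hzS⟩, hzS⟩
    rw [hDS] at this
    exact this

end Pool.Agent.H8.S2956aux
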