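import Mathlib

set_option autoImplicit false

namespace Pool.Agent.H8.S2992aux

open TopologicalSpace

noncomputable section

/-- the class invariant -/
def Q (H : Type) [Group H] [TopologicalSpace H] : Prop :=
  ∃ N : Subgroup H, N.Normal ∧ IsCompact (N : Set H) ∧ Countable (H ⧸ N)

theorem q_compact (H : Type) [Group H] [TopologicalSpace H] [CompactSpace H] : Q H := by
  refine ⟨⊤, inferInstance, ?_, ?_⟩
  · simpa using isCompact_univ
  · have : Subsingleton (H ⧸ (⊤ : Subgroup H)) := QuotientGroup.subsingleton_quotient_top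
    infer_instance

theorem q_countable (H : Type) [Group H] [TopologicalSpace H] [Countable H] : Q H := by
  refine ⟨⊥, inferInstance, ?_, ?_⟩
  · simpa using isCompact_singleton
  · exact Quotient.countable

theorem q_prod (H₁ H₂ : Type) [Group H₁] [TopologicalSpace H₁] [Group H₂] [TopologicalSpace H₂]
    (h₁ : Q H₁) (h₂ : Q H₂) : Q (H₁ × H₂) := by
  obtain ⟨N₁, n₁, c₁, q₁⟩ := h₁
  obtain ⟨N₂, n₂, c₂, q₂⟩ := h₂
  refine ⟨N₁.prod N₂, inferInstance, ?_, ?_⟩
  · rw [Subgroup.coe_prod]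
    exact c₁.prod c₂
  · let f : (H₁ × H₂) ⧸ (N₁.prod N₂) → (H₁ ⧸ N₁) × (H₂ ⧸ N₂) :=
      fun x => Quotient.liftOn' x (fun y => ((y.1 : H₁ ⧸ N₁), (y.2 : H₂ ⧸ N₂))) (by
        intro a b hab
        rw [QuotientGroup.leftRel_apply] at hab
        rw [Subgroup.mem_prod] at hab
        ext
        · exact QuotientGroup.eq.2 hab.1
        · exact QuotientGroup.eq.2 hab.2)
    have hf : Function.Injective f := by
      intro x y
      induction x using Quotient.inductionOn'
      induction y using Quotient.inductionOn'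
      rename_i a b
      intro h
      have h1 : ((a.1 : H₁ ⧸ N₁), (a.2 : H₂ ⧸ N₂)) = ((b.1 : H₁ ⧸ N₁), (b.2 : H₂ ⧸ N₂)) := h
      rw [Prod.mk.injEq] at h1
      apply Quotient.sound'
      rw [QuotientGroup.leftRel_apply, Subgroup.mem_prod]
      exact ⟨QuotientGroup.eq.1 h1.1, QuotientGroup.eq.1 h1.2⟩
    exact hf.countable

theorem q_closed (H : Type) [Group H] [TopologicalSpace H] (L : Subgroup H)
    (hL : IsClosed (L : Set H)) (h : Q H) : Q L := by
  obtain ⟨N, n, c, q⟩ := h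
  refine ⟨N.subgroupOf L, inferInstance, ?_, ?_⟩
  · have h1 : Topology.IsClosedEmbedding (Subtype.val : L → H) :=
      IsClosed.isClosedEmbedding_subtypeVal hL
    exact h1.isCompact_preimage c
  · let f : L ⧸ (N.subgroupOf L) → H ⧸ N :=
      fun x => Quotient.liftOn' x (fun y => ((y : H) : H ⧸ N)) (by
        intro a b hab
        rw [QuotientGroup.leftRel_apply] at hab
        exact QuotientGroup.eq.2 hab)
    have hf : Function.Injective f := by
      intro x y
      induction x using Quotient.inductionOn'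
      induction y using Quotient.inductionOn'
      rename_i a b
      intro h
      have h1 : (QuotientGroup.mk (a : H) : H ⧸ N) = QuotientGroup.mk (b : H) := h
      apply Quotient.sound'
      rw [QuotientGroup.leftRel_apply]
      exact Subgroup.mem_subgroupOf.2 (QuotientGroup.eq.1 h1)
    exact hf.countable

theorem q_image (H₁ H₂ : Type) [Group H₁] [TopologicalSpace H₁] [Group H₂] [TopologicalSpace H₂]
    (f : H₁ →* H₂) (hc : Continuous f) (hs : Function.Surjective f) (h : Q H₁) : Q H₂ := by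
  obtain ⟨N, n, c, q⟩ := h
  refine ⟨N.map f, n.map f hs, ?_, ?_⟩
  · rw [Subgroup.coe_map]
    exact c.image hc
  · let g : H₁ ⧸ N → H₂ ⧸ (N.map f) :=
      fun x => Quotient.liftOn' x (fun y => ((f y : H₂) : H₂ ⧸ (N.map f))) (by
        intro a b hab
        rw [QuotientGroup.leftRel_apply] at hab
        apply QuotientGroup.eq.2
        exact ⟨a⁻¹ * b, hab, by simp⟩)
    have hg : Function.Surjective g := by
      intro y
      induction y using Quotient.inductionOn'
      rename_i b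
      obtain ⟨a, rfl⟩ := hs b
      exact ⟨(a : H₁ ⧸ N), rfl⟩
    exact hg.countable

/-- the semidirect product of the 2-adic numbers by the integers -/
def G : Type := ℚ_[2] × ℤ

instance : TopologicalSpace G := inferInstanceAs (TopologicalSpace (ℚ_[2] × ℤ))
instance : T2Space G := inferInstanceAs (T2Space (ℚ_[2] × ℤ))
instance : SecondCountableTopology G :=
  inferInstanceAs (SecondCountableTopology (ℚ_[2] × ℤ))

theorem two_ne : (2 : ℚ_[2]) ≠ 0 := by norm_num

instance : Group G where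
  mul x y := (x.1 + (2 : ℚ_[2]) ^ x.2 * y.1, x.2 + y.2)
  one := ((0 : ℚ_[2]), (0 : ℤ))
  inv x := (-((2 : ℚ_[2]) ^ (-x.2) * x.1), -x.2)
  mul_assoc x y z := by
    change ((x.1 + (2 : ℚ_[2]) ^ x.2 * y.1) + (2 : ℚ_[2]) ^ (x.2 + y.2) * z.1, (x.2 + y.2) + z.2)
      = (x.1 + (2 : ℚ_[2]) ^ x.2 * (y.1 + (2 : ℚ_[2]) ^ y.2 * z.1), x.2 + (y.2 + z.2))
    rw [zpow_add₀ two_ne]
    ext
    · simp only; ring
    · simp only; ring
  one_mul x := by
    change ((0 : ℚ_[2]) + (2 : ℚ_[2]) ^ (0 : ℤ) * x.1, (0 : ℤ) + x.2) = (x.1, x.2)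
    rw [zpow_zero, one_mul, zero_add, zero_add]
  mul_one x := by
    change (x.1 + (2 : ℚ_[2]) ^ (x.2) * 0, x.2 + 0) = (x.1, x.2)
    rw [mul_zero, add_zero, add_zero]
  inv_mul_cancel x := by
    change (-((2 : ℚ_[2]) ^ (-x.2) * x.1) + (2 : ℚ_[2]) ^ (-x.2) * x.1, -x.2 + x.2) =
      ((0 : ℚ_[2]), (0 : ℤ))
    simp

def gmk (a : ℚ_[2]) (n : ℤ) : G := (a, n)

theorem mul_def (x y : G) : x * y = ((x.1 + (2 : ℚ_[2]) ^ x.2 * y.1, x.2 + y.2) : ℚ_[2] × ℤ) := rfl
theorem inv_def (x : G) : x⁻¹ = ((-((2 : ℚ_[2]) ^ (-x.2) * x.1), -x.2) : ℚ_[2] × ℤ) := rfl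
theorem one_def : (1 : G) = (((0 : ℚ_[2]), (0 : ℤ)) : ℚ_[2] × ℤ) := rfl

theorem cont_fst : Continuous (fun x : G => x.1) := continuous_fst (X := ℚ_[2]) (Y := ℤ)
theorem cont_snd : Continuous (fun x : G => x.2) := continuous_snd (X := ℚ_[2]) (Y := ℤ)
theorem cont_pow {X : Type} [TopologicalSpace X] (f : X → ℤ) (hf : Continuous f) :
    Continuous (fun x => (2 : ℚ_[2]) ^ (f x)) :=
  (continuous_of_discreteTopology (f := fun n : ℤ => (2 : ℚ_[2]) ^ n)).comp hf

instance : IsTopologicalGroup G where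
  continuous_mul := by
    have h : Continuous (fun p : G × G =>
        ((p.1.1 + (2 : ℚ_[2]) ^ p.1.2 * p.2.1, p.1.2 + p.2.2) : ℚ_[2] × ℤ)) := by
      have a1 : Continuous (fun p : G × G => p.1.1) := cont_fst.comp continuous_fst
      have a2 : Continuous (fun p : G × G => p.1.2) := cont_snd.comp continuous_fst
      have a3 : Continuous (fun p : G × G => p.2.1) := cont_fst.comp continuous_snd
      have a4 : Continuous (fun p : G × G => p.2.2) := cont_snd.comp continuous_snd
      exact (a1.add ((cont_pow _ a2).mul a3)).prodMk (a2.add a4)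
    exact h
  continuous_inv := by
    have h : Continuous (fun p : G =>
        ((-((2 : ℚ_[2]) ^ (-p.2) * p.1), -p.2) : ℚ_[2] × ℤ)) := by
      exact ((cont_pow _ cont_snd.neg).mul cont_fst).neg.prodMk cont_snd.neg
    exact h

theorem not_q : ¬ Q G := by
  rintro ⟨N, n, c, q⟩
  -- N is bounded in the first coordinate
  have c1 : IsCompact ((fun x : G => x.1) '' (N : Set G)) := c.image cont_fst
  obtain ⟨C, hC⟩ := c1.isBounded.exists_norm_le
  have key : ∀ a : ℚ_[2], gmk a 0 ∈ N → a = 0 := by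
    intro a ha
    by_contra hne
    have h1 : ∀ k : ℕ, (2 : ℝ) ^ k * ‖a‖ ≤ C := by
      intro k
      have h2 := n.conj_mem _ ha (gmk 0 (-(k : ℤ)))
      have h3 := hC _ ⟨_, h2, rfl⟩
      change ‖((0 : ℚ_[2]) + (2 : ℚ_[2]) ^ (-(k : ℤ)) * a) + (2 : ℚ_[2]) ^ (-(k : ℤ) + 0) *
        (-((2 : ℚ_[2]) ^ (-(-(k : ℤ))) * 0))‖ ≤ C at h3
      simp only [zero_add, mul_zero, neg_zero, add_zero, norm_mul] at h3
      rw [zpow_neg, norm_inv, norm_zpow] at h3
      have h4 : ‖(2 : ℚ_[2])‖ = 2⁻¹ := by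
        have := Padic.norm_p (p := 2)
        simpa using this
      rw [h4] at h3
      simpa using h3
    have h5 : 0 < ‖a‖ := norm_pos_iff.2 hne
    obtain ⟨k, hk⟩ := pow_unbounded_of_one_lt (C / ‖a‖) (one_lt_two (α := ℝ))
    have := h1 k
    rw [div_lt_iff₀ h5] at hk
    linarith
  have hinj : Function.Injective (fun a : ℚ_[2] => (QuotientGroup.mk (gmk a 0) : G ⧸ N)) := by
    intro a b hab
    have h1 := QuotientGroup.eq.1 hab
    have h2 : (gmk a 0)⁻¹ * gmk b 0 = gmk (b - a) 0 := by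
      change ((-((2 : ℚ_[2]) ^ (-(0 : ℤ)) * a) + (2 : ℚ_[2]) ^ (-(0 : ℤ)) * b, -(0 : ℤ) + 0) :
        ℚ_[2] × ℤ) = (b - a, 0)
      ext
      · simp only [neg_zero, zpow_zero, one_mul]; ring
      · simp
    rw [h2] at h1
    have := key _ h1
    linear_combination -this
  have hcount : Countable ℚ_[2] := hinj.countable
  have h2 : Cardinal.continuum ≤ Cardinal.mk ℚ_[2] :=
    continuum_le_cardinal_of_nontriviallyNormedField ℚ_[2]
  have h3 : Cardinal.mk ℚ_[2] ≤ Cardinal.aleph0 := Cardinal.mk_le_aleph0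
  exact absurd (h2.trans h3) (not_le.2 Cardinal.aleph0_lt_continuum)

/-- the compact open subgroup -/
def K : Subgroup G where
  carrier := {x | ‖x.1‖ ≤ 1 ∧ x.2 = 0}
  mul_mem' := by
    rintro x y ⟨hx, hx'⟩ ⟨hy, hy'⟩
    constructor
    · change ‖x.1 + (2 : ℚ_[2]) ^ x.2 * y.1‖ ≤ 1
      rw [hx', zpow_zero, one_mul]
      exact (Padic.nonarchimedean _ _).trans (max_le hx hy)
    · change x.2 + y.2 = 0
      rw [hx', hy', add_zero]
  one_mem' := by
    constructor
    · change ‖(0 : ℚ_[2])‖ ≤ 1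
      simp
    · rfl
  inv_mem' := by
    rintro x ⟨hx, hx'⟩
    constructor
    · change ‖-((2 : ℚ_[2]) ^ (-x.2) * x.1)‖ ≤ 1
      rw [hx', neg_zero, zpow_zero, one_mul, norm_neg]
      exact hx
    · change -x.2 = 0
      rw [hx', neg_zero]

theorem K_eq : (K : Set G) = (Metric.closedBall (0 : ℚ_[2]) 1 ×ˢ ({0} : Set ℤ) : Set (ℚ_[2] × ℤ)) := by
  ext x
  change (‖x.1‖ ≤ 1 ∧ x.2 = 0) ↔ (dist x.1 0 ≤ 1 ∧ x.2 = 0)
  rw [dist_zero_right]

theorem K_compact : IsCompact (K : Set G) := by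
  rw [K_eq]
  exact (isCompact_closedBall (0 : ℚ_[2]) 1).prod isCompact_singleton

theorem K_sep : SeparableSpace K := by
  have h : SecondCountableTopology K :=
    TopologicalSpace.Subtype.secondCountableTopology (K : Set G)
  infer_instance

theorem K_open : IsOpen (K : Set G) := by
  rw [K_eq]
  exact (IsUltrametricDist.isOpen_closedBall (0 : ℚ_[2]) one_ne_zero).prod
    (isOpen_discrete ({0} : Set ℤ))

theorem K_quot : Countable (G ⧸ K) := by
  have : DiscreteTopology (G ⧸ K) := QuotientGroup.discreteTopology K_open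
  have h : SeparableSpace (G ⧸ K) := by
    have h2 : DenseRange (fun x : G => (x : G ⧸ K)) := QuotientGroup.mk_surjective.denseRange
    exact h2.separableSpace continuous_quotient_mk'
  exact separableSpace_iff_countable.1 h

end

end Pool.Agent.H8.S2992aux
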