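import Mathlib

set_option autoImplicit false

namespace Pool.Agent.H8.S3066aux

open Topology Set Filter

section general

variable {K : Type} [TopologicalSpace K] [CompactSpace K] [T2Space K] {T : Type} (φ : K → (T → ℝ))

/-- continuous functions depend on countably many coordinates -/
theorem dep (hinj : Function.Injective φ) (hφ : Continuous φ) (f : K → ℝ) (hf : Continuous f) :
    ∃ S : Set T, S.Countable ∧ ∀ x y, (∀ t ∈ S, φ x t = φ y t) → f x = f y := by
  have h1 : ∀ n : ℕ, ∃ F : Finset T, ∀ x y, 1 / ((n : ℝ) + 1) ≤ |f x - f y| →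
      ∃ t ∈ F, φ x t ≠ φ y t := by
    intro n
    let E : Set (K × K) := {p | 1 / ((n : ℝ) + 1) ≤ |f p.1 - f p.2|}
    have hE : IsCompact E := by
      apply IsClosed.isCompact
      apply isClosed_le continuous_const
      fun_prop
    let O : T → Set (K × K) := fun t => {p | φ p.1 t ≠ φ p.2 t}
    have hO : ∀ t, IsOpen (O t) := by
      intro t
      have a1 : Continuous (fun p : K × K => φ p.1 t) :=
        (continuous_apply t).comp (hφ.comp continuous_fst)
      have a2 : Continuous (fun p : K × K => φ p.2 t) :=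
        (continuous_apply t).comp (hφ.comp continuous_snd)
      exact (isClosed_eq a1 a2).isOpen_compl
    have hcov : E ⊆ ⋃ t, O t := by
      rintro ⟨x, y⟩ hxy
      have hne : x ≠ y := by
        rintro rfl
        have h2 : 1 / ((n : ℝ) + 1) ≤ |f x - f x| := hxy
        rw [sub_self, abs_zero] at h2
        have : 0 < 1 / ((n : ℝ) + 1) := by positivity
        linarith
      rw [mem_iUnion]
      by_contra hcon
      push Not at hcon
      apply hne
      apply hinj
      ext t
      by_contra h3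
      exact hcon t h3
    obtain ⟨F, hF⟩ := hE.elim_finite_subcover O hO hcov
    refine ⟨F, fun x y hxy => ?_⟩
    have h2 := hF (show (x, y) ∈ E from hxy)
    rw [mem_iUnion₂] at h2
    obtain ⟨t, ht, ht'⟩ := h2
    exact ⟨t, ht, ht'⟩
  choose F hF using h1
  refine ⟨⋃ n, (F n : Set T), countable_iUnion (fun n => (F n).countable_toSet), ?_⟩
  intro x y hxy
  by_contra hne
  have hpos : 0 < |f x - f y| := abs_pos.2 (sub_ne_zero.2 hne)
  obtain ⟨n, hn⟩ := exists_nat_one_div_lt hpos
  obtain ⟨t, ht, ht'⟩ := hF n x y hn.le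
  exact ht' (hxy t (mem_iUnion.2 ⟨n, ht⟩))

theorem dense_sel (hφ : Continuous φ) (A : Set K) (hA : Dense A) (T' : Set T) (hT' : T'.Countable) :
    ∃ D : Set K, D ⊆ A ∧ D.Countable ∧
      ∀ x : K, (fun t : T' => φ x t) ∈ closure ((fun a : K => fun t : T' => φ a t) '' D) := by
  have hc : Countable T' := hT'.to_subtype
  let p : K → (T' → ℝ) := fun a => fun t : T' => φ a t
  have hp : Continuous p := continuous_pi (fun t => (continuous_apply t.1).comp hφ)
  let s : Set (T' → ℝ) := p '' A
  obtain ⟨D', hD'c, hD'd⟩ := TopologicalSpace.exists_countable_dense s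
  have h1 : ∀ d : D', ∃ a ∈ A, p a = d.1.1 := fun d => d.1.2
  choose f hfA hf using h1
  have hcD : Countable D' := hD'c.to_subtype
  refine ⟨range f, ?_, countable_range f, ?_⟩
  · rintro _ ⟨d, rfl⟩
    exact hfA d
  · intro x
    have h2 : p '' (range f) = Subtype.val '' D' := by
      rw [← range_comp]
      have : p ∘ f = Subtype.val ∘ (Subtype.val : D' → s) := by
        ext1 d
        exact hf d
      rw [this, range_comp, Subtype.range_coe]
    have h3 : closure (p '' (range f)) = closure s := by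
      rw [h2]
      apply le_antisymm
      · apply closure_mono
        rintro _ ⟨d, _, rfl⟩
        exact d.2
      · apply closure_minimal _ isClosed_closure
        intro y hy
        have h4 : (⟨y, hy⟩ : s) ∈ closure D' := hD'd _
        exact image_closure_subset_closure_image continuous_subtype_val ⟨_, h4, rfl⟩
    change p x ∈ closure (p '' (range f))
    rw [h3]
    exact image_closure_subset_closure_image hp ⟨x, hA x, rfl⟩

theorem fix_exists (hinj : Function.Injective φ) (hφ : Continuous φ) (A : Set K) (hA : Dense A)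
    (hAφ : ∀ a, a ∈ A ↔ {t | φ a t ≠ 0}.Countable) (h : K → K) (hc : Continuous h)
    (hhA : ∀ x, h x ∈ A ↔ x ∈ A) (hhh : ∀ x, h (h x) = x) (z : K) (hz : h z = z)
    (g : K → ℝ) (hg : Continuous g) : ∃ a ∈ A, h a = a ∧ g a = g z := by
  have h1 : ∀ t : T, ∃ S : Set T, S.Countable ∧ ∀ x y, (∀ s ∈ S, φ x s = φ y s) →
      φ (h x) t = φ (h y) t := fun t =>
    dep φ hinj hφ (fun x => φ (h x) t) ((continuous_apply t).comp (hφ.comp hc))
  choose Dt hDt1 hDt2 using h1
  obtain ⟨Dg, hDg1, hDg2⟩ := dep φ hinj hφ g hg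
  have h2 := dense_sel φ hφ A hA
  choose! D hD1 hD2 hD3 using h2
  let Next : Set T → Set T := fun T' => T' ∪ (⋃ a ∈ D T', ({t | φ a t ≠ 0} ∪ {t | φ (h a) t ≠ 0})) ∪
    ⋃ t ∈ T', Dt t
  let Tn : ℕ → Set T := fun n => Nat.rec (motive := fun _ => Set T) Dg (fun _ S => Next S) n
  have hTn : ∀ n, Tn (n + 1) = Next (Tn n) := fun n => rfl
  have hTnc : ∀ n, (Tn n).Countable := by
    intro n
    induction n with
    | zero => exact hDg1
    | succ n ih =>
      rw [hTn n]
      refine (ih.union ?_).union ?_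
      · refine (hD2 _ ih).biUnion (fun a ha => ?_)
        have haA := hD1 _ ih ha
        exact ((hAφ a).1 haA).union ((hAφ (h a)).1 ((hhA a).2 haA))
      · exact ih.biUnion (fun t _ => hDt1 t)
  have hmono : ∀ n, Tn n ⊆ Tn (n + 1) := by
    intro n
    rw [hTn n]
    exact subset_union_left.trans subset_union_left
  let T1 : Set T := ⋃ n, Tn n
  have hT1c : T1.Countable := countable_iUnion hTnc
  let A0 : Set K := ⋃ n, (D (Tn n) ∪ h '' D (Tn n))
  let K0 : Set K := closure A0
  have hsupp : ∀ r ∈ K0, ∀ t ∉ T1, φ r t = 0 := by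
    intro r hr t ht
    have h3 : K0 ⊆ {r | φ r t = 0} := by
      apply closure_minimal _ (isClosed_eq ((continuous_apply t).comp hφ) continuous_const)
      intro a ha
      rw [mem_iUnion] at ha
      obtain ⟨n, ha⟩ := ha
      by_contra hne
      apply ht
      apply mem_iUnion.2
      refine ⟨n + 1, ?_⟩
      rw [hTn n]
      left; right
      rw [mem_iUnion₂]
      rcases ha with ha | ⟨b, hb, rfl⟩
      · exact ⟨a, ha, Or.inl hne⟩
      · exact ⟨b, hb, Or.inr hne⟩
    exact h3 hr
  have hK0A : K0 ⊆ A := by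
    intro r hr
    rw [hAφ]
    refine hT1c.mono ?_
    intro t ht
    by_contra h3
    exact ht (hsupp r hr t h3)
  have hK0h : ∀ r ∈ K0, h r ∈ K0 := by
    intro r hr
    have h3 := image_closure_subset_closure_image hc (mem_image_of_mem h hr)
    refine closure_mono ?_ h3
    rintro _ ⟨a, ha, rfl⟩
    rw [mem_iUnion] at ha ⊢
    obtain ⟨n, ha⟩ := ha
    refine ⟨n, ?_⟩
    rcases ha with ha | ⟨b, hb, rfl⟩
    · exact Or.inr ⟨a, ha, rfl⟩
    · rw [hhh]
      exact Or.inl hb
  have hK0c : IsCompact K0 := isClosed_closure.isCompact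
  let C : ℕ → Set K := fun n => {r | r ∈ K0 ∧ ∀ t ∈ Tn n, φ r t = φ z t}
  have hCc : ∀ n, IsClosed (C n) := by
    intro n
    have : C n = K0 ∩ ⋂ t ∈ Tn n, {r | φ r t = φ z t} := by
      ext r
      simp [C]
    rw [this]
    apply isClosed_closure.inter
    apply isClosed_biInter
    intro t _
    exact isClosed_eq ((continuous_apply t).comp hφ) continuous_const
  have hCne : ∀ n, (C n).Nonempty := by
    intro n
    let p : K → (Tn n → ℝ) := fun a => fun t : Tn n => φ a t
    have hp : Continuous p := continuous_pi (fun t => (continuous_apply t.1).comp hφ)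
    have h3 : IsClosed (p '' K0) := (hK0c.image hp).isClosed
    have h4 : closure (p '' (D (Tn n))) ⊆ p '' K0 := by
      apply closure_minimal _ h3
      apply image_mono
      refine subset_trans ?_ subset_closure
      intro a ha
      exact mem_iUnion.2 ⟨n, Or.inl ha⟩
    obtain ⟨r, hr, hrz⟩ := h4 (hD3 (Tn n) (hTnc n) z)
    refine ⟨r, hr, fun t ht => ?_⟩
    exact congrFun hrz ⟨t, ht⟩
  have hCmono : ∀ n, C (n + 1) ⊆ C n := by
    rintro n r ⟨hr1, hr2⟩
    exact ⟨hr1, fun t ht => hr2 t (hmono n ht)⟩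
  obtain ⟨r, hr⟩ := IsCompact.nonempty_iInter_of_sequence_nonempty_isCompact_isClosed C hCmono hCne
    (hCc 0).isCompact hCc
  rw [mem_iInter] at hr
  have hrK0 : r ∈ K0 := (hr 0).1
  have hrT1 : ∀ t ∈ T1, φ r t = φ z t := by
    intro t ht
    obtain ⟨n, hn⟩ := mem_iUnion.1 ht
    exact (hr n).2 t hn
  refine ⟨r, hK0A hrK0, ?_, ?_⟩
  · apply hinj
    ext t
    by_cases ht : t ∈ T1
    · rw [hrT1 t ht]
      obtain ⟨n, hn⟩ := mem_iUnion.1 ht
      have h3 : φ (h r) t = φ (h z) t := by
        apply hDt2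
        intro s hs
        apply hrT1
        apply mem_iUnion.2
        refine ⟨n + 1, ?_⟩
        rw [hTn n]
        right
        rw [mem_iUnion₂]
        exact ⟨t, hn, hs⟩
      rw [h3, hz]
    · rw [hsupp r hrK0 t ht, hsupp (h r) (hK0h r hrK0) t ht]
  · apply hDg2
    intro s hs
    exact hrT1 s (mem_iUnion.2 ⟨0, hs⟩)

theorem conv_subseq (hinj : Function.Injective φ) (hφ : Continuous φ) (a : ℕ → K)
    (ha : ∀ n, {t | φ (a n) t ≠ 0}.Countable) :
    ∃ (b : K) (k : ℕ → ℕ), StrictMono k ∧ Tendsto (fun n => a (k n)) atTop (𝓝 b) := by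
  let T2 : Set T := ⋃ n, {t | φ (a n) t ≠ 0}
  have hT2 : T2.Countable := countable_iUnion ha
  have hcT2 : Countable T2 := hT2.to_subtype
  let p : K → (T2 → ℝ) := fun a => fun t : T2 => φ a t
  have hp : Continuous p := continuous_pi (fun t => (continuous_apply t.1).comp hφ)
  have h1 : IsCompact (range p) := isCompact_range hp
  obtain ⟨w, -, k, hk, hlim⟩ := h1.isSeqCompact (x := fun n => p (a n)) (fun n => mem_range_self _)
  have hemb : IsClosedEmbedding φ := hφ.isClosedEmbedding hinj
  classical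
  let w' : T → ℝ := fun t => if ht : t ∈ T2 then w ⟨t, ht⟩ else 0
  have hlim' : Tendsto (fun n => φ (a (k n))) atTop (𝓝 w') := by
    rw [tendsto_pi_nhds]
    intro t
    by_cases ht : t ∈ T2
    · have h2 : w' t = w ⟨t, ht⟩ := by simp only [w', ht, dif_pos]
      rw [h2]
      exact (tendsto_pi_nhds.1 hlim) ⟨t, ht⟩
    · have h2 : w' t = 0 := by simp only [w', ht, dif_neg, not_false_eq_true]
      rw [h2]
      have h3 : ∀ n, φ (a (k n)) t = 0 := by
        intro n
        by_contra hne
        exact ht (mem_iUnion.2 ⟨k n, hne⟩)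
      simp_rw [h3]
      exact tendsto_const_nhds
  have hw' : w' ∈ range φ := by
    apply hemb.isClosed_range.mem_of_tendsto hlim'
    exact Eventually.of_forall (fun n => mem_range_self _)
  obtain ⟨b, hb⟩ := hw'
  refine ⟨b, k, hk, ?_⟩
  rw [hemb.isEmbedding.tendsto_nhds_iff, hb]
  exact hlim'

end general

/-! ### The concrete space -/

abbrev Ix : Type := Set ℕ ⊕ (Set ℕ × Set ℕ)

abbrev KK : Type := Ix → Bool

def con (p : KK) (γ : Set ℕ × Set ℕ) : Bool :=
  (p (Sum.inl (γ.1 ∩ γ.2)) == (p (Sum.inl γ.1) && p (Sum.inl γ.2))) &&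
    (p (Sum.inl γ.1ᶜ) == !(p (Sum.inl γ.1)))

def hh (p : KK) : KK
  | Sum.inl S => p (Sum.inl S)
  | Sum.inr γ => if con p γ = true then p (Sum.inr γ) else !(p (Sum.inr γ))

theorem hh_inl (p : KK) (S : Set ℕ) : hh p (Sum.inl S) = p (Sum.inl S) := rfl

theorem con_hh (p : KK) (γ : Set ℕ × Set ℕ) : con (hh p) γ = con p γ := rfl

theorem hh_hh (p : KK) : hh (hh p) = p := by
  ext i
  rcases i with S | γ
  · rfl
  · change (if con (hh p) γ = true then (hh p) (Sum.inr γ) else !((hh p) (Sum.inr γ))) = _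
    rw [con_hh]
    change (if con p γ = true then (if con p γ = true then p (Sum.inr γ) else !(p (Sum.inr γ)))
      else !((if con p γ = true then p (Sum.inr γ) else !(p (Sum.inr γ))))) = _
    split_ifs <;> simp

theorem cont_con (γ : Set ℕ × Set ℕ) : Continuous (fun p : KK => con p γ) := by
  have h1 : (fun p : KK => con p γ) = (fun q : Bool × Bool × Bool × Bool =>
      (q.1 == (q.2.1 && q.2.2.1)) && (q.2.2.2 == !q.2.1)) ∘
      (fun p : KK => (p (Sum.inl (γ.1 ∩ γ.2)), p (Sum.inl γ.1), p (Sum.inl γ.2), p (Sum.inl γ.1ᶜ))) := by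
    ext p
    rfl
  rw [h1]
  apply continuous_of_discreteTopology.comp
  fun_prop

theorem cont_hh : Continuous hh := by
  apply continuous_pi
  intro i
  rcases i with S | γ
  · exact continuous_apply _
  · have h1 : (fun p : KK => hh p (Sum.inr γ)) = (fun q : Bool × Bool =>
        if q.1 = true then q.2 else !q.2) ∘ (fun p : KK => (con p γ, p (Sum.inr γ))) := by
      ext p
      rfl
    rw [h1]
    apply continuous_of_discreteTopology.comp
    exact (cont_con γ).prodMk (continuous_apply _)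

theorem fix_con (p : KK) (hp : hh p = p) (γ : Set ℕ × Set ℕ) : con p γ = true := by
  have h1 := congrFun hp (Sum.inr γ)
  change (if con p γ = true then p (Sum.inr γ) else !(p (Sum.inr γ))) = p (Sum.inr γ) at h1
  by_contra hne
  rw [if_neg hne] at h1
  cases h2 : p (Sum.inr γ) <;> rw [h2] at h1 <;> simp at h1

theorem fix_principal (p : KK) (hp : hh p = p) (n : ℕ) (hn : p (Sum.inl {n}) = true) (S : Set ℕ) :
    p (Sum.inl S) = true ↔ n ∈ S := by
  have h1 : ∀ S : Set ℕ, n ∈ S → p (Sum.inl S) = true := by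
    intro S hS
    have h2 := fix_con p hp (S, {n})
    unfold con at h2
    simp only [Bool.and_eq_true, beq_iff_eq] at h2
    have h3 : S ∩ {n} = {n} := by
      ext m
      simp only [mem_inter_iff, mem_singleton_iff]
      constructor
      · exact fun h => h.2
      · rintro rfl; exact ⟨hS, rfl⟩
    have h4 := h2.1
    rw [h3, hn] at h4
    simpa using h4.symm
  constructor
  · intro hS
    by_contra hnS
    have h2 := h1 Sᶜ hnS
    have h3 := fix_con p hp (S, S)
    unfold con at h3
    simp only [Bool.and_eq_true, beq_iff_eq] at h3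
    have h4 := h3.2
    rw [h2, hS] at h4
    simp at h4
  · exact h1 S

open Classical in
noncomputable def zz (n : ℕ) : KK
  | Sum.inl S => decide (n ∈ S)
  | Sum.inr _ => false

open Classical in
theorem zz_inl (n : ℕ) (S : Set ℕ) : zz n (Sum.inl S) = true ↔ n ∈ S := by
  change decide (n ∈ S) = true ↔ n ∈ S
  exact decide_eq_true_iff

theorem zz_fix (n : ℕ) : hh (zz n) = zz n := by
  ext i
  rcases i with S | γ
  · rfl
  · change (if con (zz n) γ = true then (zz n) (Sum.inr γ) else !((zz n) (Sum.inr γ))) = _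
    rw [if_pos]
    unfold con
    have h1 := zz_inl n (γ.1 ∩ γ.2)
    have h2 := zz_inl n γ.1
    have h3 := zz_inl n γ.2
    have h4 := zz_inl n γ.1ᶜ
    rw [mem_inter_iff] at h1
    rw [mem_compl_iff] at h4
    cases e1 : zz n (Sum.inl (γ.1 ∩ γ.2)) <;> cases e2 : zz n (Sum.inl γ.1) <;>
      cases e3 : zz n (Sum.inl γ.2) <;> cases e4 : zz n (Sum.inl γ.1ᶜ) <;>
      rw [e1] at h1 <;> rw [e2] at h2 <;> rw [e3] at h3 <;> rw [e4] at h4 <;> simp_all

noncomputable def toR (b : Bool) : ℝ := if b = true then 1 else 0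

theorem toR_inj : Function.Injective toR := by
  intro a b h
  cases a <;> cases b <;> simp [toR] at h ⊢

noncomputable def emb (p : KK) : Ix → ℝ := fun i => toR (p i)

theorem cont_emb : Continuous emb :=
  continuous_pi (fun i => continuous_of_discreteTopology.comp (continuous_apply i))

theorem emb_inj : Function.Injective emb := by
  intro p q h
  funext i
  exact toR_inj (congrFun h i)

theorem valdivia : ∃ A : Set KK, Dense A ∧ ∃ (Γ : Type) (φ : KK → (Γ → ℝ)),
    Topology.IsEmbedding φ ∧ A = φ ⁻¹' {x : Γ → ℝ | {γ : Γ | x γ ≠ 0}.Countable} := by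
  refine ⟨emb ⁻¹' {x : Ix → ℝ | {γ : Ix | x γ ≠ 0}.Countable}, ?_, Ix, emb,
    (cont_emb.isClosedEmbedding emb_inj).isEmbedding, rfl⟩
  rw [dense_iff_inter_open]
  rintro U hU ⟨p, hp⟩
  obtain ⟨I, u, hu1, hu2⟩ := isOpen_pi_iff.1 hU p hp
  classical
  let q : KK := fun i => if i ∈ I then p i else false
  refine ⟨q, hu2 ?_, ?_⟩
  · intro i hi
    have : q i = p i := if_pos hi
    rw [this]
    exact (hu1 i hi).2
  · change {γ : Ix | emb q γ ≠ 0}.Countable
    refine (I.countable_toSet).mono ?_
    intro i hi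
    by_contra hne
    apply hi
    change toR (q i) = 0
    have : q i = false := if_neg hne
    rw [this]
    simp [toR]

theorem no_inv : ¬ ∃ A : Set KK, Dense A ∧ (∀ x, hh x ∈ A ↔ x ∈ A) ∧
          ∃ (Γ : Type) (φ : KK → (Γ → ℝ)),
            Topology.IsEmbedding φ ∧ A = φ ⁻¹' {x : Γ → ℝ | {γ : Γ | x γ ≠ 0}.Countable} := by
  rintro ⟨A, hA, hinv, Γ, φ, hφ, hAφ⟩
  have hAφ' : ∀ a, a ∈ A ↔ {t | φ a t ≠ 0}.Countable := by
    intro a
    rw [hAφ]
    rfl
  have h1 : ∀ n : ℕ, ∃ a ∈ A, hh a = a ∧ toR (a (Sum.inl {n})) = toR (zz n (Sum.inl {n})) :=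
    fun n => fix_exists φ hφ.injective hφ.continuous A hA hAφ' hh cont_hh hinv hh_hh (zz n) (zz_fix n)
      (fun p => toR (p (Sum.inl {n})))
      ((continuous_of_discreteTopology (f := toR)).comp
        (continuous_apply (Sum.inl {n} : Ix) : Continuous (fun p : KK => p (Sum.inl {n}))))
  choose a haA hafix haz using h1
  have h2 : ∀ n S, a n (Sum.inl S) = true ↔ n ∈ S := by
    intro n S
    apply fix_principal (a n) (hafix n) n
    have h3 := toR_inj (haz n)
    rw [h3, zz_inl]
    rfl
  obtain ⟨b, k, hk, hlim⟩ := conv_subseq φ hφ.injective hφ.continuous a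
    (fun n => (hAφ' (a n)).1 (haA n))
  let S : Set ℕ := {m | ∃ i, m = k (2 * i)}
  have h3 : Tendsto (fun n => a (k n) (Sum.inl S)) atTop (𝓝 (b (Sum.inl S))) :=
    ((continuous_apply (Sum.inl S : Ix)).tendsto b).comp hlim
  have h4 : ∀ᶠ n in atTop, a (k n) (Sum.inl S) = b (Sum.inl S) := by
    have : ({b (Sum.inl S)} : Set Bool) ∈ 𝓝 (b (Sum.inl S)) := by simp
    exact h3 this
  obtain ⟨N, hN⟩ := eventually_atTop.1 h4
  have h5 := hN (2 * N) (by omega)
  have h6 := hN (2 * N + 1) (by omega)
  have h7 : a (k (2 * N)) (Sum.inl S) = true := (h2 _ _).2 ⟨N, rfl⟩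
  rw [← h6] at h5
  rw [h7] at h5
  have h8 := (h2 _ _).1 h5.symm
  obtain ⟨i, hi⟩ := h8
  have := hk.injective hi
  omega

end Pool.Agent.H8.S3066aux
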