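import Mathlib

set_option autoImplicit false

open Set MeasureTheory Topology

namespace Pool.Agent.H8.S3123

noncomputable section

theorem const_of_int (g : ℝ → ℂ) (hg : ContinuousOn g (Icc 0 1))
    (h : ∀ s ∈ Icc (0 : ℝ) 1, ∃ k : ℤ, g s = k * (2 * Real.pi * Complex.I)) : g 0 = g 1 := by
  obtain ⟨k0, hk0⟩ := h 0 (by simp)
  obtain ⟨k1, hk1⟩ := h 1 (by simp)
  have key : k0 = k1 := by
    by_contra hne
    let f : ℝ → ℝ := fun s => (g s).im / (2 * Real.pi)
    have hf : ContinuousOn f (uIcc 0 1) := by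
      rw [uIcc_of_le zero_le_one]
      exact (Complex.continuous_im.comp_continuousOn hg).div_const _
    have hfk : ∀ s ∈ Icc (0 : ℝ) 1, ∀ k : ℤ, g s = k * (2 * Real.pi * Complex.I) → f s = k := by
      intro s _ k hk
      simp only [f, hk]
      have : ((k : ℂ) * (2 * Real.pi * Complex.I)).im = k * (2 * Real.pi) := by
        simp
      rw [this]
      field_simp
    have e0 := hfk 0 (by simp) _ hk0
    have e1 := hfk 1 (by simp) _ hk1
    have hiv := intermediate_value_uIcc hf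
    rw [e0, e1] at hiv
    have hmid : ∃ y : ℝ, y ∈ uIcc (k0 : ℝ) k1 ∧ ∀ k : ℤ, y ≠ k := by
      rcases lt_or_gt_of_ne hne with hlt | hlt
      · refine ⟨k0 + 1 / 2, ?_, ?_⟩
        · rw [uIcc_of_le (by exact_mod_cast hlt.le)]
          have : (k0 : ℝ) + 1 ≤ k1 := by exact_mod_cast hlt
          constructor <;> linarith
        · intro k hk
          have h2 : (2 * (k - k0) : ℤ) = 1 := by
            have : (2 * ((k : ℝ) - k0)) = 1 := by rw [← hk]; ring
            exact_mod_cast this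
          omega
      · refine ⟨k1 + 1 / 2, ?_, ?_⟩
        · rw [uIcc_of_ge (by exact_mod_cast hlt.le)]
          have : (k1 : ℝ) + 1 ≤ k0 := by exact_mod_cast hlt
          constructor <;> linarith
        · intro k hk
          have h2 : (2 * (k - k1) : ℤ) = 1 := by
            have : (2 * ((k : ℝ) - k1)) = 1 := by rw [← hk]; ring
            exact_mod_cast this
          omega
    obtain ⟨y, hy, hyk⟩ := hmid
    obtain ⟨s, hs, rfl⟩ := hiv hy
    rw [uIcc_of_le zero_le_one] at hs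
    obtain ⟨k, hk⟩ := h s hs
    exact hyk k (hfk s hs k hk)
  rw [hk0, hk1, key]

theorem exists_log (F : ℝ × ℝ → ℂ) (hF : Continuous F) (h0 : ∀ x, F x ≠ 0) :
    ∃ G : ℝ × ℝ → ℂ, ContinuousOn G (Icc 0 1 ×ˢ Icc 0 1) ∧
      ∀ x ∈ (Icc (0 : ℝ) 1 ×ˢ Icc (0 : ℝ) 1), Complex.exp (G x) = F x := by
  have hK : IsCompact (Icc (0 : ℝ) 1 ×ˢ Icc (0 : ℝ) 1) := isCompact_Icc.prod isCompact_Icc
  have hne : (Icc (0 : ℝ) 1 ×ˢ Icc (0 : ℝ) 1).Nonempty := ⟨(0, 0), by simp⟩
  obtain ⟨x0, hx0, hmin⟩ := hK.exists_isMinOn hne (hF.norm.continuousOn)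
  have hm : 0 < ‖F x0‖ := norm_pos_iff.2 (h0 x0)
  have huc := hK.uniformContinuousOn_of_continuous hF.continuousOn
  rw [Metric.uniformContinuousOn_iff] at huc
  obtain ⟨δ, hδ, huc⟩ := huc _ hm
  obtain ⟨N, hN⟩ := exists_nat_one_div_lt hδ
  have hN0 : (0 : ℝ) < (N : ℝ) + 1 := by positivity
  let p : ℕ → ℝ × ℝ → ℝ × ℝ := fun j x => ((j : ℝ) / (N + 1)) • x
  have hp : ∀ j ≤ N + 1, ∀ x ∈ (Icc (0 : ℝ) 1 ×ˢ Icc (0 : ℝ) 1), p j x ∈ (Icc (0 : ℝ) 1 ×ˢ Icc (0 : ℝ) 1) := by
    rintro j hj ⟨x, y⟩ ⟨⟨hx1, hx2⟩, ⟨hy1, hy2⟩⟩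
    have hj1 : (j : ℝ) / (N + 1) ≤ 1 := by
      rw [div_le_one hN0]; exact_mod_cast hj
    have hj0 : 0 ≤ (j : ℝ) / (N + 1) := by positivity
    simp only at hx1 hx2 hy1 hy2
    refine ⟨⟨?_, ?_⟩, ⟨?_, ?_⟩⟩ <;> simp only [p, Prod.smul_mk, smul_eq_mul]
    · positivity
    · nlinarith
    · positivity
    · nlinarith
  have hratio : ∀ j < N + 1, ∀ x ∈ (Icc (0 : ℝ) 1 ×ˢ Icc (0 : ℝ) 1),
      F (p (j + 1) x) / F (p j x) ∈ Complex.slitPlane := by
    intro j hj x hx
    have h1 := hp (j + 1) (by omega) x hx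
    have h2 := hp j (by omega) x hx
    have h3 : dist (p (j + 1) x) (p j x) < δ := by
      rw [dist_eq_norm]
      have : p (j + 1) x - p j x = (1 / ((N : ℝ) + 1)) • x := by
        simp only [p]
        rw [← sub_smul]
        congr 1
        push_cast
        field_simp
        ring
      rw [this, norm_smul, Real.norm_of_nonneg (by positivity)]
      have hx1 : ‖x‖ ≤ 1 := by
        obtain ⟨⟨hx1, hx2⟩, ⟨hy1, hy2⟩⟩ := hx
        rw [Prod.norm_def]
        apply max_le
        · rw [Real.norm_eq_abs, abs_le]; constructor <;> linarith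
        · rw [Real.norm_eq_abs, abs_le]; constructor <;> linarith
      calc 1 / ((N : ℝ) + 1) * ‖x‖ ≤ 1 / ((N : ℝ) + 1) * 1 := by gcongr
        _ < δ := by rw [mul_one]; exact hN
    have h4 := huc _ h1 _ h2 h3
    rw [dist_eq_norm] at h4
    have h5 : ‖F x0‖ ≤ ‖F (p j x)‖ := hmin h2
    have h6 : ‖F (p (j + 1) x) / F (p j x) - 1‖ < 1 := by
      have : F (p (j + 1) x) / F (p j x) - 1 = (F (p (j + 1) x) - F (p j x)) / F (p j x) := by
        field_simp [h0 (p j x)]
      rw [this, norm_div, div_lt_one (norm_pos_iff.2 (h0 _))]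
      linarith
    left
    have h7 := Complex.abs_re_le_norm (F (p (j + 1) x) / F (p j x) - 1)
    rw [Complex.sub_re, Complex.one_re] at h7
    have := (abs_le.1 (h7.trans h6.le)).1
    have h8 := abs_lt.1 (lt_of_le_of_lt h7 h6)
    linarith [h8.1]
  have hpc : ∀ j, Continuous (p j) := fun j => continuous_const_smul _
  refine ⟨fun x => Complex.log (F 0) + ∑ j ∈ Finset.range (N + 1), Complex.log (F (p (j + 1) x) / F (p j x)),
    ?_, ?_⟩
  · apply ContinuousOn.add continuousOn_const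
    apply continuousOn_finsetSum
    intro j hj
    have hj' := Finset.mem_range.1 hj
    apply ContinuousOn.clog
    · exact ((hF.comp (hpc _)).div (hF.comp (hpc _)) (fun x => h0 _)).continuousOn
    · intro x hx
      exact hratio j hj' x hx
  · intro x hx
    rw [Complex.exp_add, Complex.exp_log (h0 _), Complex.exp_sum]
    have : ∀ j ∈ Finset.range (N + 1), Complex.exp (Complex.log (F (p (j + 1) x) / F (p j x))) =
        F (p (j + 1) x) / F (p j x) := fun j _ => Complex.exp_log (div_ne_zero (h0 _) (h0 _))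
    have htel : ∀ n : ℕ, ∏ j ∈ Finset.range n, F (p (j + 1) x) / F (p j x) =
        F (p n x) / F (p 0 x) := by
      intro n
      induction n with
      | zero => simp [div_self (h0 _)]
      | succ n ih =>
        rw [Finset.prod_range_succ, ih]
        field_simp [h0 (p n x)]
    rw [Finset.prod_congr rfl this, htel]
    have e0 : p 0 x = 0 := by simp [p]
    have e1 : p (N + 1) x = x := by
      simp only [p]
      push_cast
      rw [div_self hN0.ne', one_smul]
    rw [e0, e1, mul_div_cancel₀ _ (h0 0)]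

theorem no_contract (F : ℝ × ℝ → ℂ) (hF : Continuous F) (h0 : ∀ x, F x ≠ 0)
    (hp : ∀ t, F (1, t) = F (0, t)) (r : ℝ) (hr : 0 < r)
    (h1 : ∀ s, F (s, 0) = r * Complex.exp (2 * Real.pi * Complex.I * s)) (b : ℂ)
    (h2 : ∀ s, ‖F (s, 1) - b‖ < ‖b‖) : False := by
  obtain ⟨G, hG, hexp⟩ := exists_log F hF h0
  have hb : b ≠ 0 := by
    rintro rfl
    have := h2 0
    rw [norm_zero] at this
    exact absurd this (not_lt.2 (norm_nonneg _))
  have hGs : ∀ t ∈ Icc (0 : ℝ) 1, ContinuousOn (fun s => G (s, t)) (Icc 0 1) := fun t ht =>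
    hG.comp (by fun_prop) (fun s hs => ⟨hs, ht⟩)
  have hGt : ∀ s ∈ Icc (0 : ℝ) 1, ContinuousOn (fun t => G (s, t)) (Icc 0 1) := fun s hs =>
    hG.comp (by fun_prop) (fun t ht => ⟨hs, ht⟩)
  have i0 : (0 : ℝ) ∈ Icc (0 : ℝ) 1 := by simp
  have i1 : (1 : ℝ) ∈ Icc (0 : ℝ) 1 := by simp
  -- the winding number is constant
  have w1 : G (1, 0) - G (0, 0) = G (1, 1) - G (0, 1) := by
    apply const_of_int (fun t => G (1, t) - G (0, t)) ((hGt 1 i1).sub (hGt 0 i0))
    intro t ht
    have := (hexp (1, t) ⟨i1, ht⟩).trans ((hp t).trans (hexp (0, t) ⟨i0, ht⟩).symm)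
    rw [Complex.exp_eq_exp_iff_exists_int] at this
    obtain ⟨k, hk⟩ := this
    refine ⟨k, ?_⟩
    rw [hk]
    ring
  have w2 : G (0, 0) - (Complex.log r + 2 * Real.pi * Complex.I * (0 : ℝ)) =
      G (1, 0) - (Complex.log r + 2 * Real.pi * Complex.I * (1 : ℝ)) := by
    apply const_of_int (fun s => G (s, 0) - (Complex.log r + 2 * Real.pi * Complex.I * (s : ℝ)))
      ((hGs 0 i0).sub (by fun_prop))
    intro s hs
    have e1 := hexp (s, 0) ⟨hs, i0⟩
    rw [h1 s] at e1
    have e2 : Complex.exp (Complex.log r + 2 * Real.pi * Complex.I * (s : ℝ)) =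
        r * Complex.exp (2 * Real.pi * Complex.I * s) := by
      rw [Complex.exp_add, Complex.exp_log (by exact_mod_cast hr.ne')]
    rw [← e2, Complex.exp_eq_exp_iff_exists_int] at e1
    obtain ⟨k, hk⟩ := e1
    refine ⟨k, ?_⟩
    rw [hk]
    ring
  have w3 : G (0, 1) - (Complex.log b + Complex.log (F (0, 1) / b)) =
      G (1, 1) - (Complex.log b + Complex.log (F (1, 1) / b)) := by
    apply const_of_int (fun s => G (s, 1) - (Complex.log b + Complex.log (F (s, 1) / b)))
    · apply (hGs 1 i1).sub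
      apply ContinuousOn.add continuousOn_const
      apply ContinuousOn.clog
      · exact ((hF.comp (by fun_prop)).div_const _).continuousOn
      · intro s hs
        left
        have h6 : ‖F (s, 1) / b - 1‖ < 1 := by
          have : F (s, 1) / b - 1 = (F (s, 1) - b) / b := by
            field_simp
          rw [this, norm_div, div_lt_one (norm_pos_iff.2 hb)]
          exact h2 s
        have h7 := Complex.abs_re_le_norm (F (s, 1) / b - 1)
        rw [Complex.sub_re, Complex.one_re] at h7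
        have h8 := abs_lt.1 (lt_of_le_of_lt h7 h6)
        linarith [h8.1]
    · intro s hs
      have e1 := hexp (s, 1) ⟨hs, i1⟩
      have e2 : Complex.exp (Complex.log b + Complex.log (F (s, 1) / b)) = F (s, 1) := by
        rw [Complex.exp_add, Complex.exp_log hb, Complex.exp_log (div_ne_zero (h0 _) hb)]
        field_simp
      rw [← e2, Complex.exp_eq_exp_iff_exists_int] at e1
      obtain ⟨k, hk⟩ := e1
      refine ⟨k, ?_⟩
      rw [hk]
      ring
  rw [hp 1] at w3
  have w4 : (2 : ℂ) * Real.pi * Complex.I = 0 := by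
    have e1 : G (1, 1) - G (0, 1) = 0 := by linear_combination -w3
    have e2 : G (1, 0) - G (0, 0) = 2 * Real.pi * Complex.I := by
      push_cast at w2
      linear_combination -w2
    rw [← e2, w1, e1]
  exact Complex.two_pi_I_ne_zero w4

theorem seg_avoid (D : Set ℂ) (hD : D.Countable) (y : ℂ) (hy : y ∉ D) (B : Set ℂ) (hB : IsOpen B)
    (hne : B.Nonempty) : ∃ v ∈ B, ∀ t ∈ Icc (0 : ℝ) 1, y + (t : ℂ) * v ∉ D := by
  have hbad : volume (⋃ d ∈ D, (Submodule.span ℝ {d - y} : Set ℂ)) = 0 := by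
    rw [measure_biUnion_null_iff hD]
    intro d hd
    apply Measure.addHaar_submodule
    intro htop
    have h1 : d - y ≠ 0 := sub_ne_zero.2 (fun h => hy (h ▸ hd))
    have h2 := finrank_span_singleton (K := ℝ) h1
    rw [htop, finrank_top, Complex.finrank_real_complex] at h2
    omega
  have hex : ∃ v ∈ B, v ∉ ⋃ d ∈ D, (Submodule.span ℝ {d - y} : Set ℂ) := by
    by_contra h
    push Not at h
    have h1 : volume B ≤ 0 := by
      rw [← hbad]
      exact measure_mono h
    exact absurd (hB.measure_pos volume hne) (not_lt.2 h1)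
  obtain ⟨v, hv, hvb⟩ := hex
  refine ⟨v, hv, ?_⟩
  intro t ht htD
  simp only [mem_iUnion, not_exists] at hvb
  apply hvb _ htD
  rw [SetLike.mem_coe, Submodule.mem_span_singleton]
  have ht0 : t ≠ 0 := by
    rintro rfl
    apply hy
    simpa using htD
  refine ⟨t⁻¹, ?_⟩
  rw [Complex.real_smul]
  have : (t : ℂ) ≠ 0 := by exact_mod_cast ht0
  push_cast
  field_simp
  ring

theorem stationary (D : Set ℂ) (hD : D.Countable) (hDd : Dense D)
    (h : {z : ℂ // z ∉ D} × unitInterval → {z : ℂ // z ∉ D}) (hc : Continuous h)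
    (hid : ∀ x, h (x, 0) = x) (a : {z : ℂ // z ∉ D}) (t₀ : unitInterval) : h (a, t₀) = a := by
  by_contra hne
  set b : ℂ := (h (a, t₀) : ℂ) with hb
  have hba : b ≠ a := fun e => hne (Subtype.ext e)
  obtain ⟨ε, hε⟩ : ∃ ε, ε = ‖b - a‖ / 3 := ⟨_, rfl⟩
  have hε0 : 0 < ε := by
    rw [hε]
    have := norm_pos_iff.2 (sub_ne_zero.2 hba)
    positivity
  have hca : Continuous (fun x : {z : ℂ // z ∉ D} => (h (x, t₀) : ℂ)) :=
    continuous_subtype_val.comp (hc.comp (by fun_prop))
  obtain ⟨δ', hδ', hδ'2⟩ := Metric.continuous_iff.1 hca a ε hε0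
  obtain ⟨δ, hδ, hδ1, hδ2⟩ : ∃ δ > 0, δ ≤ δ' ∧ δ ≤ ε := ⟨min δ' ε, lt_min hδ' hε0, min_le_left _ _,
    min_le_right _ _⟩
  obtain ⟨d, hdD, hda⟩ := Metric.dense_iff.1 hDd (a : ℂ) (δ / 2) (by positivity)
  rw [Metric.mem_ball, dist_eq_norm] at hdD
  obtain ⟨r, hr, hrD⟩ : ∃ r ∈ Ioo (0 : ℝ) (δ / 2), r ∉ (fun d' => ‖d' - d‖) '' D := by
    by_contra hcon
    push Not at hcon
    have h1 : (Ioo (0 : ℝ) (δ / 2)).Countable := (hD.image _).mono hcon
    exact Cardinal.Real.Ioo_countable_iff.1 h1 |> fun h => absurd h (by simp; positivity)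
  have hcD : ∀ s : ℝ, d + r * Complex.exp (2 * Real.pi * Complex.I * s) ∉ D := by
    intro s hs
    apply hrD
    refine ⟨_, hs, ?_⟩
    simp only [add_sub_cancel_left]
    rw [norm_mul]
    have : (2 * Real.pi * Complex.I * s : ℂ) = ((2 * Real.pi * s : ℝ) : ℂ) * Complex.I := by
      push_cast; ring
    rw [this, Complex.norm_exp_ofReal_mul_I, mul_one, Complex.norm_real, Real.norm_of_nonneg hr.1.le]
  let c : ℝ → {z : ℂ // z ∉ D} := fun s => ⟨_, hcD s⟩
  have hcc : Continuous c := by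
    apply Continuous.subtype_mk
    fun_prop
  let F : ℝ × ℝ → ℂ := fun p => (h (c p.1, (projIcc 0 1 zero_le_one p.2) * t₀) : ℂ) - d
  have hF : Continuous F := by
    apply Continuous.sub _ continuous_const
    apply continuous_subtype_val.comp
    apply hc.comp
    apply Continuous.prodMk (hcc.comp continuous_fst)
    exact (continuous_projIcc.comp continuous_snd).mul continuous_const
  have hF0 : ∀ x, F x ≠ 0 := by
    intro x hx
    have h1 := (h (c x.1, (projIcc 0 1 zero_le_one x.2) * t₀)).2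
    apply h1
    rw [sub_eq_zero.1 hx]
    exact hda
  have hc01 : c 1 = c 0 := by
    apply Subtype.ext
    change d + r * Complex.exp (2 * Real.pi * Complex.I * (1 : ℝ)) =
      d + r * Complex.exp (2 * Real.pi * Complex.I * (0 : ℝ))
    simp [Complex.exp_two_pi_mul_I]
  apply no_contract F hF hF0 (fun t => by simp only [F, hc01]) r hr.1 _ (b - d) _
  · intro s
    have h1 : (projIcc (0 : ℝ) 1 zero_le_one 0) = (0 : unitInterval) := by
      rw [projIcc_left]; rfl
    simp only [F, h1, zero_mul, hid, c]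
    ring
  · intro s
    have h1 : (projIcc (0 : ℝ) 1 zero_le_one 1) = (1 : unitInterval) := by
      rw [projIcc_right]; rfl
    simp only [F, h1, one_mul]
    have h2 : (h (c s, t₀) : ℂ) - d - (b - d) = (h (c s, t₀) : ℂ) - b := by ring
    rw [h2, ← dist_eq_norm]
    have h3 : dist (c s) a < δ' := by
      rw [Subtype.dist_eq, dist_eq_norm]
      have h4 : ((c s : ℂ) - a) = (d - a) + r * Complex.exp (2 * Real.pi * Complex.I * s) := by
        simp only [c]; ring
      rw [h4]
      have h5 : ‖(r : ℂ) * Complex.exp (2 * Real.pi * Complex.I * s)‖ = r := by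
        rw [norm_mul]
        have : (2 * Real.pi * Complex.I * s : ℂ) = ((2 * Real.pi * s : ℝ) : ℂ) * Complex.I := by
          push_cast; ring
        rw [this, Complex.norm_exp_ofReal_mul_I, mul_one, Complex.norm_real,
          Real.norm_of_nonneg hr.1.le]
      calc ‖(d - a) + r * Complex.exp (2 * Real.pi * Complex.I * s)‖
          ≤ ‖d - a‖ + ‖(r : ℂ) * Complex.exp (2 * Real.pi * Complex.I * s)‖ := norm_add_le _ _
        _ < δ / 2 + δ / 2 := by rw [h5]; linarith [hr.2]
        _ ≤ δ' := by linarith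
    have h6 := hδ'2 _ h3
    have h7 : ‖b - a‖ ≤ ‖b - d‖ + ‖d - a‖ := by
      have : b - a = (b - d) + (d - a) := by ring
      rw [this]
      exact norm_add_le _ _
    have h8 : ‖b - a‖ = 3 * ε := by rw [hε]; ring
    have h9 : ε < ‖b - d‖ := by linarith
    exact lt_trans h6 h9

theorem main :
    ∃ (X : Type) (_ : MetricSpace X),
      (∀ h : X × unitInterval → X, Continuous h →
          (∀ x : X, h (x, (0 : unitInterval)) = x) →
          ∀ (a : X) (t : unitInterval), h (a, t) = a) ∧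
      ∃ (Z : Type) (_ : MetricSpace Z) (g : Z → X),
        Continuous g ∧ IsOpenMap g ∧ Function.Surjective g ∧
        ∃ (a : Z) (h : Z × unitInterval → X), Continuous h ∧
          (∀ z : Z, h (z, (0 : unitInterval)) = g z) ∧
          ∃ t : unitInterval, h (a, t) ≠ g a := by
  obtain ⟨D, hD, hDd⟩ := TopologicalSpace.exists_countable_dense ℂ
  refine ⟨{z : ℂ // z ∉ D}, inferInstance, fun h hc hid a t => stationary D hD hDd h hc hid a t, ?_⟩
  let Z : Type := {p : ℂ × ℂ // ∀ t ∈ Icc (0 : ℝ) 1, p.1 + (t : ℂ) * p.2 ∉ D}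
  have hz0 : ∀ p : Z, p.1.1 ∉ D := by
    intro p
    have := p.2 0 (by simp)
    simpa using this
  refine ⟨Z, inferInstance, fun p => ⟨p.1.1, hz0 p⟩, ?_, ?_, ?_, ?_⟩
  · exact (continuous_fst.comp continuous_subtype_val).subtype_mk _
  · intro U hU
    obtain ⟨W, hW, rfl⟩ := isOpen_induced_iff.1 hU
    rw [isOpen_iff_mem_nhds]
    rintro _ ⟨p, hp, rfl⟩
    obtain ⟨A, B, hA, hB, hpA, hpB, hAB⟩ := isOpen_prod_iff.1 hW p.1.1 p.1.2 hp
    have h1 : (Subtype.val ⁻¹' A : Set {z : ℂ // z ∉ D}) ∈ 𝓝 (⟨p.1.1, hz0 p⟩ : {z : ℂ // z ∉ D}) :=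
      (hA.preimage continuous_subtype_val).mem_nhds hpA
    apply Filter.mem_of_superset h1
    rintro ⟨y, hy⟩ hyA
    obtain ⟨v, hv, hvD⟩ := seg_avoid D hD y hy B hB ⟨_, hpB⟩
    exact ⟨⟨(y, v), hvD⟩, hAB ⟨hyA, hv⟩, rfl⟩
  · rintro ⟨y, hy⟩
    exact ⟨⟨(y, 0), fun t _ => by simpa using hy⟩, rfl⟩
  · obtain ⟨y, hy⟩ : ∃ y, y ∉ D := (hD.dense_compl ℝ).nonempty
    obtain ⟨v, hv, hvD⟩ := seg_avoid D hD y hy {0}ᶜ isOpen_compl_singleton ⟨1, one_ne_zero⟩
    refine ⟨⟨(y, v), hvD⟩, fun q => ⟨q.1.1.1 + ((q.2 : ℝ) : ℂ) * q.1.1.2, q.1.2 _ q.2.2⟩, ?_, ?_,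
      1, ?_⟩
    · apply Continuous.subtype_mk
      have h1 : Continuous fun q : Z × unitInterval => (q.1.1 : ℂ × ℂ) :=
        continuous_subtype_val.comp continuous_fst
      have h2 : Continuous fun q : Z × unitInterval => ((q.2 : ℝ) : ℂ) :=
        Complex.continuous_ofReal.comp (continuous_subtype_val.comp continuous_snd)
      exact (continuous_fst.comp h1).add (h2.mul (continuous_snd.comp h1))
    · intro z
      apply Subtype.ext
      simp
    · intro h
      have h1 : y + (((1 : unitInterval) : ℝ) : ℂ) * v = y := congrArg Subtype.val h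
      exact hv (by simpa using h1)

end

end Pool.Agent.H8.S3123
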