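import Mathlib

set_option autoImplicit false
universe u

open Set

namespace Pool.Agent.H8.S3141

/-- Well-filtered T0 spaces. -/
def WF (Y : Type u) [TopologicalSpace Y] : Prop :=
  (T0Space Y ∧
    ∀ 𝒦 : Set (Set Y), 𝒦.Nonempty →
      (∀ K ∈ 𝒦, IsCompact K ∧
        ∀ y : Y, (∀ V : Set Y, IsOpen V → K ⊆ V → y ∈ V) → y ∈ K) →
      (∀ K₁ ∈ 𝒦, ∀ K₂ ∈ 𝒦, ∃ K₃ ∈ 𝒦, K₃ ⊆ K₁ ∩ K₂) →
      ∀ U : Set Y, IsOpen U → ⋂₀ 𝒦 ⊆ U → ∃ K ∈ 𝒦, K ⊆ U)

theorem mem_open_iff {Y : Type u} [TopologicalSpace Y] (y : Y) (S V : Set Y) (hV : IsOpen V)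
    (h : closure {y} = closure S) : y ∈ V ↔ (S ∩ V).Nonempty := by
  constructor
  · intro hy
    have h1 : y ∈ closure S := by rw [← h]; exact subset_closure rfl
    obtain ⟨z, hz1, hz2⟩ := mem_closure_iff.1 h1 V hV hy
    exact ⟨z, hz2, hz1⟩
  · rintro ⟨z, hz1, hz2⟩
    have h1 : z ∈ closure {y} := by rw [h]; exact subset_closure hz1
    obtain ⟨w, hw1, hw2⟩ := mem_closure_iff.1 h1 V hV hz2
    rwa [← mem_singleton_iff.1 hw2]

theorem main (ι : Type u) (X : ι → Type u) [∀ i, TopologicalSpace (X i)]
    (hX : ∀ i, T0Space (X i) ∧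
        ∀ A : Set (X i), IsIrreducible A → IsClosed A →
          ∀ (Y : Type u) [TopologicalSpace Y], WF Y →
            ∀ f : X i → Y, Continuous f →
              ∃! y : Y, y ∈ closure (f '' A) ∧ closure (f '' A) = closure {y}) :
    (T0Space ((i : ι) → X i) ∧
        ∀ A : Set ((i : ι) → X i), IsIrreducible A → IsClosed A →
          ∀ (Y : Type u) [TopologicalSpace Y], WF Y →
            ∀ f : ((i : ι) → X i) → Y, Continuous f →
              ∃! y : Y, y ∈ closure (f '' A) ∧ closure (f '' A) = closure {y}) := by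
  classical
  have : ∀ i, T0Space (X i) := fun i => (hX i).1
  refine ⟨inferInstance, ?_⟩
  intro A hA hAc Y _ hY f hf
  let B : (i : ι) → Set (X i) := fun i => closure ((fun x : (i : ι) → X i => x i) '' A)
  have hBirr : ∀ i, IsIrreducible (B i) := fun i =>
    (hA.image _ (continuous_apply i).continuousOn).closure
  have hAB : ∀ x : (i : ι) → X i, x ∈ A ↔ ∀ i, x i ∈ B i := by
    intro x
    constructor
    · intro hx i
      exact subset_closure ⟨x, hx, rfl⟩
    · intro hx
      rw [← hAc.closure_eq, mem_closure_iff]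
      intro U hU hxU
      obtain ⟨I, v, hv, hIU⟩ := isOpen_pi_iff.1 hU x hxU
      obtain ⟨z, hz1, hz2⟩ := isIrreducible_iff_sInter.1 hA
        (I.image fun i => (fun y : (i : ι) → X i => y i) ⁻¹' v i)
        (by
          intro w hw
          obtain ⟨i, hi, rfl⟩ := Finset.mem_image.1 hw
          exact (hv i hi).1.preimage (continuous_apply i))
        (by
          intro w hw
          obtain ⟨i, hi, rfl⟩ := Finset.mem_image.1 hw
          obtain ⟨t, ht1, ⟨y, hy, rfl⟩⟩ := mem_closure_iff.1 (hx i) (v i) (hv i hi).1 (hv i hi).2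
          exact ⟨y, hy, ht1⟩)
      refine ⟨z, hIU ?_, hz1⟩
      intro i hi
      exact hz2 _ (Finset.mem_coe.2 (Finset.mem_image_of_mem _ hi))
  -- one step
  have step : ∀ g : ((i : ι) → X i) → Y, Continuous g → ∀ i : ι, ∃ g' : ((i : ι) → X i) → Y,
      Continuous g' ∧ ∀ x, closure {g' x} = closure ((fun t => g (Function.update x i t)) '' B i) := by
    intro g hg i
    have hgu : ∀ x, Continuous fun t => g (Function.update x i t) := fun x =>
      hg.comp (continuous_const.update i continuous_id)
    have hch : ∀ x, ∃ y : Y, closure {y} = closure ((fun t => g (Function.update x i t)) '' B i) := by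
      intro x
      obtain ⟨y, ⟨_, hy⟩, _⟩ := (hX i).2 (B i) (hBirr i) isClosed_closure Y hY _ (hgu x)
      exact ⟨y, hy.symm⟩
    choose g' hg' using hch
    refine ⟨g', ?_, hg'⟩
    rw [continuous_def]
    intro V hV
    have : g' ⁻¹' V = ⋃ t ∈ B i, {x | g (Function.update x i t) ∈ V} := by
      ext x
      rw [mem_preimage, mem_open_iff _ _ _ hV (hg' x)]
      simp only [mem_iUnion, mem_ofPred_eq, Set.Nonempty, mem_inter_iff, mem_image]
      constructor
      · rintro ⟨_, ⟨t, ht, rfl⟩, h⟩
        exact ⟨t, ht, h⟩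
      · rintro ⟨t, ht, h⟩
        exact ⟨_, ⟨t, ht, rfl⟩, h⟩
    rw [this]
    apply isOpen_iUnion
    intro t
    apply isOpen_iUnion
    intro _
    exact hV.preimage (hg.comp (continuous_id.update i continuous_const))
  -- finite iteration
  let S : Finset ι → ((i : ι) → X i) → Set ((i : ι) → X i) := fun F x =>
    {z | (∀ i ∈ F, z i ∈ B i) ∧ ∀ j, j ∉ F → z j = x j}
  have iter : ∀ F : Finset ι, ∃ g : ((i : ι) → X i) → Y, Continuous g ∧
      ∀ x, closure {g x} = closure (f '' S F x) := by
    intro F
    induction F using Finset.induction_on with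
    | empty =>
      refine ⟨f, hf, fun x => ?_⟩
      have : S ∅ x = {x} := by
        ext z
        simp only [S, mem_ofPred_eq, mem_singleton_iff]
        constructor
        · rintro ⟨_, h⟩
          ext j
          exact h j (by simp)
        · rintro rfl
          exact ⟨by simp, fun _ _ => rfl⟩
      rw [this, image_singleton]
    | insert i F hi ih =>
      obtain ⟨g, hg, hgx⟩ := ih
      obtain ⟨g', hg', hgx'⟩ := step g hg i
      refine ⟨g', hg', fun x => ?_⟩
      rw [hgx']
      apply subset_antisymm
      · apply closure_minimal _ isClosed_closure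
        rintro _ ⟨t, ht, rfl⟩
        have h1 : g (Function.update x i t) ∈ closure (f '' S F (Function.update x i t)) := by
          rw [← hgx]; exact subset_closure rfl
        refine closure_mono (image_mono ?_) h1
        rintro z ⟨hz1, hz2⟩
        refine ⟨fun k hk => ?_, fun j hj => ?_⟩
        · rcases Finset.mem_insert.1 hk with rfl | hk
          · rw [hz2 k hi, Function.update_self]
            exact ht
          · exact hz1 k hk
        · rw [Finset.mem_insert, not_or] at hj
          rw [hz2 j hj.2, Function.update_of_ne hj.1]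
      · apply closure_minimal _ isClosed_closure
        rintro _ ⟨z, ⟨hz1, hz2⟩, rfl⟩
        have h1 : f z ∈ closure {g (Function.update x i (z i))} := by
          rw [hgx]
          apply subset_closure
          refine ⟨z, ⟨fun k hk => hz1 k (Finset.mem_insert_of_mem hk), fun j hj => ?_⟩, rfl⟩
          by_cases hji : j = i
          · subst hji
            rw [Function.update_self]
          · rw [Function.update_of_ne hji]
            exact hz2 j (by simp [hji, hj])
        refine closure_mono ?_ h1
        rw [singleton_subset_iff]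
        exact ⟨z i, hz1 i (Finset.mem_insert_self _ _), rfl⟩
  choose g hg hgx using iter
  obtain ⟨x, hx⟩ := hA.nonempty
  have hxB := (hAB x).1 hx
  let y : Finset ι → Y := fun F => g F x
  have hmono : ∀ F F' : Finset ι, F ⊆ F' → y F ∈ closure {y F'} := by
    intro F F' hFF
    have h1 : y F ∈ closure (f '' S F x) := by
      rw [← hgx]; exact subset_closure rfl
    change y F ∈ closure {g F' x}
    rw [hgx]
    refine closure_mono (image_mono ?_) h1
    rintro z ⟨hz1, hz2⟩
    refine ⟨fun k hk => ?_, fun j hj => hz2 j fun h => hj (hFF h)⟩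
    by_cases hkF : k ∈ F
    · exact hz1 k hkF
    · rw [hz2 k hkF]
      exact hxB k
  -- the well-filtered space is a monotone convergence space
  obtain ⟨w, hw1, hw2⟩ : ∃ w : Y, (∀ F, y F ∈ closure {w}) ∧ w ∈ closure (range y) := by
    by_contra hcon
    push Not at hcon
    let K : Finset ι → Set Y := fun F => {w | y F ∈ closure {w}}
    have hK : ∀ F, ∀ V : Set Y, IsOpen V → y F ∈ V → K F ⊆ V := by
      intro F V hV hyV w hw
      obtain ⟨w', hw1, hw2⟩ := mem_closure_iff.1 hw V hV hyV
      rwa [← mem_singleton_iff.1 hw2]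
    have hyK : ∀ F, y F ∈ K F := fun F => subset_closure rfl
    obtain ⟨K', ⟨F, rfl⟩, hKF⟩ := hY.2 (range K) (range_nonempty K)
      (by
        rintro _ ⟨F, rfl⟩
        refine ⟨?_, fun w hw => ?_⟩
        · rw [isCompact_iff_finite_subcover]
          intro κ U hU hcov
          obtain ⟨i, hi⟩ := mem_iUnion.1 (hcov (hyK F))
          exact ⟨{i}, fun z hz => mem_iUnion₂.2 ⟨i, by simp, hK F _ (hU i) hi hz⟩⟩
        · change y F ∈ closure {w}
          rw [mem_closure_iff]
          intro V hV hyV
          exact ⟨w, hw V hV (hK F V hV hyV), rfl⟩)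
      (by
        rintro _ ⟨F, rfl⟩ _ ⟨F', rfl⟩
        refine ⟨_, ⟨F ∪ F', rfl⟩, fun w hw => ⟨?_, ?_⟩⟩
        · exact closure_minimal (t := closure {w}) (singleton_subset_iff.2 hw) isClosed_closure
            (hmono F (F ∪ F') Finset.subset_union_left)
        · exact closure_minimal (t := closure {w}) (singleton_subset_iff.2 hw) isClosed_closure
            (hmono F' (F ∪ F') Finset.subset_union_right))
      (closure (range y))ᶜ isClosed_closure.isOpen_compl
      (by
        intro w hw
        exact hcon w fun F => hw _ ⟨F, rfl⟩)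
    exact hKF (hyK F) (subset_closure ⟨F, rfl⟩)
  have hcl : closure (f '' A) = closure {w} := by
    have h1 : closure {w} = closure (range y) := by
      apply subset_antisymm
      · exact closure_minimal (singleton_subset_iff.2 hw2) isClosed_closure
      · exact closure_minimal (range_subset_iff.2 hw1) isClosed_closure
    rw [h1]
    apply subset_antisymm
    · apply closure_minimal _ isClosed_closure
      rintro _ ⟨z, hz, rfl⟩
      rw [mem_closure_iff]
      intro V hV hzV
      obtain ⟨I, v, hv, hIU⟩ := isOpen_pi_iff.1 (hV.preimage hf) z hzV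
      let z' : (i : ι) → X i := fun i => if i ∈ I then z i else x i
      have h2 : f z' ∈ V := by
        apply hIU
        intro i hi
        have hi' : i ∈ I := hi
        simp only [z', hi', if_true]
        exact (hv i hi').2
      have h3 : z' ∈ S I x := by
        refine ⟨fun k hk => ?_, fun j hj => ?_⟩
        · simp only [z', hk, if_true]
          exact (hAB z).1 hz k
        · simp only [z', hj, if_false]
      refine ⟨y I, ?_, ⟨I, rfl⟩⟩
      exact (mem_open_iff _ _ V hV (hgx I x)).2 ⟨f z', ⟨z', h3, rfl⟩, h2⟩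
    · apply closure_minimal _ isClosed_closure
      rintro _ ⟨F, rfl⟩
      have h2 : y F ∈ closure (f '' S F x) := by
        rw [← hgx]; exact subset_closure rfl
      refine closure_mono (image_mono ?_) h2
      rintro z ⟨hz1, hz2⟩
      rw [hAB]
      intro i
      by_cases hi : i ∈ F
      · exact hz1 i hi
      · rw [hz2 i hi]
        exact hxB i
  refine ⟨w, ⟨by rw [hcl]; exact subset_closure rfl, hcl⟩, ?_⟩
  rintro w' ⟨_, hw'⟩
  have := hY.1
  rw [hcl] at hw'
  exact (inseparable_iff_closure_eq.2 hw'.symm).eq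

end Pool.Agent.H8.S3141
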