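import Mathlib

set_option autoImplicit false

open Set Cardinal

namespace Pool.Agent.H8.S3166

noncomputable section

/-- Small sets. -/
def Small (j : ℕ) {α : Type} (S : Set α) : Prop := #S ≤ aleph (j : Ordinal)

theorem al (j : ℕ) : ℵ₀ ≤ aleph (j : Ordinal) := aleph0_le_aleph _

theorem Small.mono {j : ℕ} {α : Type} {S T : Set α} (h : Small j T) (hS : S ⊆ T) : Small j S :=
  (mk_le_mk_of_subset hS).trans h

theorem small_empty (j : ℕ) {α : Type} : Small j (∅ : Set α) := by
  unfold Small
  rw [mk_eq_zero]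
  exact zero_le

theorem small_singleton (j : ℕ) {α : Type} (a : α) : Small j ({a} : Set α) := by
  unfold Small
  rw [mk_singleton]
  exact (one_le_aleph0).trans (al j)

theorem Small.union {j : ℕ} {α : Type} {S T : Set α} (h : Small j S) (h' : Small j T) :
    Small j (S ∪ T) :=
  (mk_union_le S T).trans (add_le_of_le (al j) h h')

theorem small_iUnion {j : ℕ} {α κ : Type} (hκ : #κ ≤ aleph (j : Ordinal)) (S : κ → Set α)
    (h : ∀ k, Small j (S k)) : Small j (⋃ k, S k) :=
  (mk_iUnion_le S).trans (mul_le_of_le (al j) hκ (ciSup_le' h))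

/-- The spaces. -/
def X (j : ℕ) : Type := (aleph ((j + 1 : ℕ) : Ordinal)).out

theorem mkX (j : ℕ) : #(X j) = aleph ((j + 1 : ℕ) : Ordinal) := mk_out _

theorem al_lt {i j : ℕ} (h : i < j) : aleph (i : Ordinal) < aleph (j : Ordinal) :=
  aleph_lt_aleph.2 (by exact_mod_cast h)

theorem al_le {i j : ℕ} (h : i ≤ j) : aleph (i : Ordinal) ≤ aleph (j : Ordinal) :=
  aleph_le_aleph.2 (by exact_mod_cast h)

theorem not_small_univ (j : ℕ) : ¬ Small j (Set.univ : Set (X j)) := by
  unfold Small
  rw [mk_univ, mkX, not_le]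
  exact al_lt (Nat.lt_succ_self j)

theorem exists_notMem {j : ℕ} {S : Set (X j)} (h : Small j S) : ∃ x, x ∉ S := by
  by_contra hcon
  push Not at hcon
  exact not_small_univ j (h.mono fun x _ => hcon x)

instance (j : ℕ) : TopologicalSpace (X j) where
  IsOpen U := U = ∅ ∨ Small j Uᶜ
  isOpen_univ := Or.inr (by rw [compl_univ]; exact small_empty j)
  isOpen_inter U V hU hV := by
    rcases hU with rfl | hU
    · left; simp
    · rcases hV with rfl | hV
      · left; simp
      · right
        rw [compl_inter]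
        exact hU.union hV
  isOpen_sUnion S hS := by
    by_cases h : ∃ U ∈ S, U ≠ ∅
    · obtain ⟨U, hU, hne⟩ := h
      right
      exact ((hS U hU).resolve_left hne).mono (compl_subset_compl.2 (subset_sUnion_of_mem hU))
    · push Not at h
      left
      rw [sUnion_eq_empty]
      exact h

theorem X_open {j : ℕ} {U : Set (X j)} : IsOpen U ↔ U = ∅ ∨ Small j Uᶜ := Iff.rfl

theorem X_closed {j : ℕ} {C : Set (X j)} : IsClosed C ↔ C = Set.univ ∨ Small j C := by
  rw [← isOpen_compl_iff, X_open, compl_compl, compl_empty_iff]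

/-- With a top point. -/
inductive P (j : ℕ) : Type
  | top : P j
  | pt : X j → P j

instance (j : ℕ) : TopologicalSpace (P j) where
  IsOpen W := W = ∅ ∨ (P.top ∈ W ∧ Small j {x | P.pt x ∉ W})
  isOpen_univ := Or.inr ⟨trivial, by
    have : {x : X j | P.pt x ∉ (Set.univ : Set (P j))} = ∅ := by ext; simp
    rw [this]; exact small_empty j⟩
  isOpen_inter U V hU hV := by
    rcases hU with rfl | hU
    · left; simp
    · rcases hV with rfl | hV
      · left; simp
      · right
        refine ⟨⟨hU.1, hV.1⟩, (hU.2.union hV.2).mono ?_⟩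
        intro x hx
        by_cases h : P.pt x ∈ U
        · exact Or.inr fun h' => hx ⟨h, h'⟩
        · exact Or.inl h
  isOpen_sUnion S hS := by
    by_cases h : ∃ U ∈ S, U ≠ ∅
    · obtain ⟨U, hU, hne⟩ := h
      right
      have h1 := (hS U hU).resolve_left hne
      exact ⟨⟨U, hU, h1.1⟩, h1.2.mono fun x hx hxU => hx ⟨U, hU, hxU⟩⟩
    · push Not at h
      left
      rw [sUnion_eq_empty]
      exact h

theorem P_open {j : ℕ} {W : Set (P j)} : IsOpen W ↔
    W = ∅ ∨ (P.top ∈ W ∧ Small j {x | P.pt x ∉ W}) := Iff.rfl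

theorem P_closed {j : ℕ} {C : Set (P j)} : IsClosed C ↔
    C = Set.univ ∨ (P.top ∉ C ∧ Small j {x | P.pt x ∈ C}) := by
  rw [← isOpen_compl_iff, P_open, compl_empty_iff]
  simp

theorem P_top_mem {j : ℕ} {W : Set (P j)} (hW : IsOpen W) (hne : W.Nonempty) : P.top ∈ W := by
  rcases P_open.1 hW with rfl | h
  · exact absurd hne (by simp)
  · exact h.1

instance (j : ℕ) : T0Space (P j) := by
  rw [t0Space_iff_exists_isOpen_xor_mem]
  have key : ∀ (a : X j), IsOpen ({P.pt a}ᶜ : Set (P j)) := by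
    intro a
    rw [P_open]
    right
    refine ⟨by simp, (small_singleton j a).mono ?_⟩
    intro x hx
    simpa using hx
  intro x y hxy
  rcases x with _ | a
  · rcases y with _ | b
    · exact absurd rfl hxy
    · exact ⟨_, key b, Or.inl ⟨by simp, by simp⟩⟩
  · exact ⟨_, key a, Or.inr ⟨fun h => hxy h.symm, by simp⟩⟩

theorem X_irr (j : ℕ) (U V : Set (X j)) (hU : IsOpen U) (hV : IsOpen V) (hU' : U.Nonempty)
    (hV' : V.Nonempty) : (U ∩ V).Nonempty := by
  have h1 := (X_open.1 hU).resolve_left hU'.ne_empty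
  have h2 := (X_open.1 hV).resolve_left hV'.ne_empty
  obtain ⟨x, hx⟩ := exists_notMem (h1.union h2)
  simp only [mem_union, mem_compl_iff, not_or, not_not] at hx
  exact ⟨x, hx⟩

theorem X_irr_fin (j : ℕ) {κ : Type} (F : Finset κ) (U : κ → Set (X j)) (hU : ∀ k ∈ F, IsOpen (U k))
    (hU' : ∀ k ∈ F, (U k).Nonempty) : ∃ x, ∀ k ∈ F, x ∈ U k := by
  have h : Small j (⋃ k : F, (U k)ᶜ) := by
    refine small_iUnion ?_ _ fun k => ?_
    · exact (mk_le_aleph0 (α := F)).trans (al j)
    · exact (X_open.1 (hU k k.2)).resolve_left (hU' k k.2).ne_empty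
  obtain ⟨x, hx⟩ := exists_notMem h
  simp only [mem_iUnion, mem_compl_iff, not_exists, not_not] at hx
  exact ⟨x, fun k hk => hx ⟨k, hk⟩⟩

/-- Maps into a small discrete closed set are constant. -/
theorem const_of_small {i j : ℕ} (g : X i → P j) (hg : Continuous g)
    (htop : ∀ x, g x ≠ P.top) (hs : Small j {a | P.pt a ∈ range g}) : ∃ a, ∀ x, g x = P.pt a := by
  obtain ⟨x0, _⟩ := exists_notMem (small_empty i)
  obtain ⟨a, ha⟩ : ∃ a, g x0 = P.pt a := by
    rcases h : g x0 with _ | a
    · exact absurd h (htop x0)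
    · exact ⟨a, rfl⟩
  refine ⟨a, fun x => ?_⟩
  by_contra hne
  have hc1 : IsClosed ({P.pt a} : Set (P j)) := by
    rw [P_closed]
    right
    refine ⟨by simp, (small_singleton j a).mono ?_⟩
    intro x hx
    simpa using hx
  have hc2 : IsClosed (range g \ {P.pt a}) := by
    rw [P_closed]
    right
    refine ⟨?_, hs.mono fun b hb => hb.1⟩
    rintro ⟨⟨y, hy⟩, _⟩
    exact htop y hy
  obtain ⟨z, hz1, hz2⟩ := X_irr i (g ⁻¹' {P.pt a})ᶜ (g ⁻¹' (range g \ {P.pt a}))ᶜ
    (hc1.preimage hg).isOpen_compl (hc2.preimage hg).isOpen_compl ⟨x, hne⟩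
    ⟨x0, fun h => h.2 ha⟩
  exact hz2 ⟨⟨z, rfl⟩, hz1⟩

/-- Dichotomy: constant or dense. -/
theorem dichotomy {i j : ℕ} (g : X i → P j) (hg : Continuous g)
    (hnc : ¬ ∃ a, ∀ x, g x = P.pt a) (W : Set (P j)) (hW : IsOpen W) (hne : W.Nonempty) :
    ∃ x, g x ∈ W := by
  by_contra hcon
  push Not at hcon
  have h1 := (P_open.1 hW).resolve_left hne.ne_empty
  apply hnc
  apply const_of_small g hg
  · intro x hx
    exact hcon x (hx ▸ h1.1)
  · refine h1.2.mono ?_
    rintro a ⟨x, hx⟩
    exact fun h => hcon x (hx ▸ h)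

theorem small_ne_top {i j : ℕ} (hij : j ≠ i) (g : X i → P j) (hg : Continuous g)
    (hnc : ¬ ∃ a, ∀ x, g x = P.pt a) : Small i {x | g x ≠ P.top} := by
  rcases lt_or_gt_of_ne hij with h | h
  · -- j < i
    have h1 : {x | g x ≠ P.top} = ⋃ a : X j, g ⁻¹' {P.pt a} := by
      ext x
      simp only [mem_ofPred_eq, mem_iUnion, mem_preimage, mem_singleton_iff]
      rcases g x with _ | a
      · simp
      · simp
    rw [h1]
    refine small_iUnion ?_ _ fun a => ?_
    · rw [mkX]
      exact al_le h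
    · have hc1 : IsClosed ({P.pt a} : Set (P j)) := by
        rw [P_closed]
        right
        refine ⟨by simp, (small_singleton j a).mono ?_⟩
        intro x hx
        simpa using hx
      rcases X_closed.1 (hc1.preimage hg) with h2 | h2
      · exact absurd ⟨a, fun x => by
          have : x ∈ g ⁻¹' {P.pt a} := by rw [h2]; trivial
          exact this⟩ hnc
      · exact h2
  · -- i < j
    have hs : Small j {a | P.pt a ∈ range g} := by
      have h1 : {a | P.pt a ∈ range g} ⊆ (fun x => match g x with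
        | P.top => Classical.choice ⟨(exists_notMem (small_empty j)).choose⟩
        | P.pt a => a) '' Set.univ := by
        rintro a ⟨x, hx⟩
        exact ⟨x, trivial, by simp [hx]⟩
      unfold Small
      refine (mk_le_mk_of_subset h1).trans (mk_image_le.trans ?_)
      rw [mk_univ, mkX]
      exact al_le h
    have hc : IsClosed {p : P j | p ≠ P.top ∧ p ∈ range g} := by
      rw [P_closed]
      right
      exact ⟨fun h => h.1 rfl, hs.mono fun a ha => ha.2⟩
    have h2 : {x | g x ≠ P.top} = g ⁻¹' {p : P j | p ≠ P.top ∧ p ∈ range g} := by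
      ext x
      simp
    rw [h2]
    rcases X_closed.1 (hc.preimage hg) with h3 | h3
    · exfalso
      apply hnc
      apply const_of_small g hg _ hs
      intro x
      have : x ∈ g ⁻¹' {p : P j | p ≠ P.top ∧ p ∈ range g} := by rw [h3]; trivial
      exact this.1
    · exact h3

/-- The bad space. -/
def Y₀ : Type := {p : (j : ℕ) → P j // {j | p j = P.top}.Finite}

instance : TopologicalSpace Y₀ := inferInstanceAs (TopologicalSpace {p : (j : ℕ) → P j // {j | p j = P.top}.Finite})
instance : T0Space Y₀ := inferInstanceAs (T0Space {p : (j : ℕ) → P j // {j | p j = P.top}.Finite})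

/-- Coordinates. -/
def co (p : Y₀) (j : ℕ) : P j := p.1 j

theorem co_cont (j : ℕ) : Continuous (fun p : Y₀ => co p j) :=
  (continuous_apply j).comp continuous_subtype_val

theorem basic {W : Set Y₀} (hW : IsOpen W) {p : Y₀} (hp : p ∈ W) : ∃ (F : Finset ℕ)
    (V : (j : ℕ) → Set (P j)), (∀ j ∈ F, IsOpen (V j) ∧ co p j ∈ V j) ∧
      ∀ q : Y₀, (∀ j ∈ F, co q j ∈ V j) → q ∈ W := by
  obtain ⟨O, hO, rfl⟩ := isOpen_induced_iff.1 hW
  obtain ⟨F, V, h1, h2⟩ := isOpen_pi_iff.1 hO p.1 hp
  exact ⟨F, V, h1, fun q hq => h2 fun j hj => hq j hj⟩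

theorem main_map {i : ℕ} (g : X i → Y₀) (hg : Continuous g) :
    ∃ q : Y₀, closure (range g) = closure {q} := by
  classical
  have hgj : ∀ j, Continuous fun x => co (g x) j := fun j => (co_cont j).comp hg
  let q : (j : ℕ) → P j := fun j => if h : ∃ a, ∀ x, co (g x) j = P.pt a then P.pt h.choose else P.top
  have hq1 : ∀ j, (∃ a, ∀ x, co (g x) j = P.pt a) → ∀ x, co (g x) j = q j := by
    intro j h x
    simp only [q, dif_pos h]
    exact h.choose_spec x
  have hq2 : ∀ j, (¬ ∃ a, ∀ x, co (g x) j = P.pt a) → q j = P.top := by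
    intro j h
    simp only [q, dif_neg h]
  have hfin : {j | q j = P.top}.Finite := by
    by_contra hinf
    let J : Set ℕ := {j | q j = P.top} \ {i}
    have hJ : J.Infinite := Set.Infinite.sdiff hinf (finite_singleton i)
    have hsm : Small i (⋃ j : J, {x | co (g x) j ≠ P.top}) := by
      refine small_iUnion ?_ _ fun j => ?_
      · exact (mk_le_aleph0 (α := J)).trans (al i)
      · apply small_ne_top j.2.2 _ (hgj j)
        intro h
        have h1 : q j = P.top := j.2.1
        simp only [q, dif_pos h] at h1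
        cases h1
    obtain ⟨x, hx⟩ := exists_notMem hsm
    simp only [mem_iUnion, mem_ofPred_eq, not_exists, not_not] at hx
    refine hJ ((g x).2.subset fun j hj => ?_)
    exact hx ⟨j, hj⟩
  refine ⟨⟨q, hfin⟩, ?_⟩
  ext p
  simp only [mem_closure_iff]
  have key : ∀ W : Set Y₀, IsOpen W → ((W ∩ range g).Nonempty ↔ (⟨q, hfin⟩ : Y₀) ∈ W) := by
    intro W hW
    constructor
    · rintro ⟨_, hw, ⟨x, rfl⟩⟩
      obtain ⟨F, V, h1, h2⟩ := basic hW hw
      apply h2
      intro j hj
      change q j ∈ V j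
      by_cases h : ∃ a, ∀ x, co (g x) j = P.pt a
      · rw [← hq1 j h x]
        exact (h1 j hj).2
      · rw [hq2 j h]
        exact P_top_mem (h1 j hj).1 ⟨_, (h1 j hj).2⟩
    · intro hw
      obtain ⟨F, V, h1, h2⟩ := basic hW hw
      obtain ⟨x, hx⟩ := X_irr_fin i F (fun j => (fun x => co (g x) j) ⁻¹' V j)
        (fun j hj => (h1 j hj).1.preimage (hgj j))
        (by
          intro j hj
          have h3 : q j ∈ V j := (h1 j hj).2
          by_cases h : ∃ a, ∀ x, co (g x) j = P.pt a
          · obtain ⟨x0, _⟩ := exists_notMem (small_empty i)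
            refine ⟨x0, ?_⟩
            rw [mem_preimage, hq1 j h x0]
            exact h3
          · obtain ⟨x, hx⟩ := dichotomy _ (hgj j) h (V j) (h1 j hj).1 ⟨_, h3⟩
            exact ⟨x, hx⟩)
      exact ⟨g x, h2 _ hx, ⟨x, rfl⟩⟩
  constructor
  · intro h W hW hpW
    exact ⟨⟨q, hfin⟩, (key W hW).1 (h W hW hpW), rfl⟩
  · intro h W hW hpW
    obtain ⟨w, hw, e⟩ := h W hW hpW
    rw [mem_singleton_iff.1 e] at hw
    exact (key W hW).2 hw

/-- The class. -/
def KK (Z : Type) [TopologicalSpace Z] : Prop := (T0Space Z ∧ QuasiSober Z) ∨ Nonempty (Z ≃ₜ Y₀)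

theorem KK_t0 (Z : Type) [TopologicalSpace Z] (h : KK Z) : T0Space Z := by
  rcases h with h | ⟨⟨e⟩⟩
  · exact h.1
  · exact e.isEmbedding.t0Space

theorem X_det (i : ℕ) (Z : Type) [TopologicalSpace Z] (hZ : KK Z) (g : X i → Z) (hg : Continuous g) :
    ∃! y : Z, closure (g '' Set.univ) = closure ({y} : Set Z) := by
  have ht0 := KK_t0 Z hZ
  have huniq : ∀ y y' : Z, closure (g '' Set.univ) = closure {y} → closure (g '' Set.univ) = closure {y'} →
      y' = y := by
    intro y y' h h'
    rw [h] at h'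
    exact (inseparable_iff_closure_eq.2 h'.symm).eq
  have hex : ∃ y : Z, closure (g '' Set.univ) = closure {y} := by
    rcases hZ with ⟨_, h⟩ | ⟨⟨e⟩⟩
    · have hirr : IsIrreducible (Set.univ : Set (X i)) := by
        obtain ⟨x0, _⟩ := exists_notMem (small_empty i)
        refine ⟨⟨x0, trivial⟩, ?_⟩
        rintro U V hU hV ⟨x, _, hx⟩ ⟨y, _, hy⟩
        obtain ⟨z, hz⟩ := X_irr i U V hU hV ⟨x, hx⟩ ⟨y, hy⟩
        exact ⟨z, trivial, hz⟩
      have h1 : IsIrreducible (closure (g '' Set.univ)) := (hirr.image g hg.continuousOn).closure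
      obtain ⟨y, hy⟩ := QuasiSober.sober h1 isClosed_closure
      exact ⟨y, hy.symm⟩
    · obtain ⟨q, hq⟩ := main_map (fun x => e (g x)) (e.continuous.comp hg)
      refine ⟨e.symm q, ?_⟩
      have h1 : g '' Set.univ = e.symm '' (range fun x => e (g x)) := by
        rw [image_univ, ← range_comp]
        congr 1
        ext x
        simp
      have h2 : ({e.symm q} : Set Z) = e.symm '' {q} := by simp
      rw [h1, h2, ← e.symm.image_closure, ← e.symm.image_closure, hq]
  obtain ⟨y, hy⟩ := hex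
  exact ⟨y, hy, fun y' hy' => huniq y y' hy hy'⟩

instance (j : ℕ) : T0Space (X j) := by
  rw [t0Space_iff_exists_isOpen_xor_mem]
  intro x y hxy
  refine ⟨{x}ᶜ, ?_, Or.inr ⟨fun h => hxy h.symm, by simp⟩⟩
  rw [X_open, compl_compl]
  exact Or.inr (small_singleton j x)

theorem main :
    ¬ (∀ (K : ∀ (Y : Type) [TopologicalSpace Y], Prop),
    (∀ (Y : Type) [TopologicalSpace Y], K Y → T0Space Y) →
    (∀ (Y : Type) [TopologicalSpace Y], T0Space Y → QuasiSober Y → K Y) →
    ∀ (I : Type) (X : I → Type) [∀ i, TopologicalSpace (X i)] [∀ i, T0Space (X i)]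
      (A : ∀ i, Set (X i)),
      (∀ i, ∀ (Y : Type) [TopologicalSpace Y], K Y →
        ∀ f : X i → Y, Continuous f →
          ∃! y : Y, closure (f '' A i) = closure ({y} : Set Y)) →
      ∀ (Y : Type) [TopologicalSpace Y], K Y →
        ∀ f : (∀ i, X i) → Y, Continuous f →
          ∃! y : Y, closure (f '' Set.pi Set.univ A) = closure ({y} : Set Y)) := by
  intro h
  let f : (∀ i, X i) → Y₀ := fun x => ⟨fun j => P.pt (x j), by
    have : {j : ℕ | (P.pt (x j) : P j) = P.top} = ∅ := by
      ext j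
      simp
    rw [this]
    exact finite_empty⟩
  have hf : Continuous f := by
    apply Continuous.subtype_mk
    apply continuous_pi
    intro j
    have h1 : Continuous (P.pt : X j → P j) := by
      rw [continuous_def]
      intro W hW
      rcases P_open.1 hW with rfl | hW
      · simp
      · rw [X_open]
        exact Or.inr hW.2
    exact h1.comp (continuous_apply j)
  obtain ⟨y, hy, _⟩ := h KK (fun Y _ hY => KK_t0 Y hY) (fun Y _ h1 h2 => Or.inl ⟨h1, h2⟩) ℕ X
    (fun _ => Set.univ) (fun i Y _ hY g hg => X_det i Y hY g hg) Y₀ (Or.inr ⟨Homeomorph.refl _⟩) f hf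
  obtain ⟨j, hj⟩ : ∃ j, y.1 j ≠ P.top := by
    by_contra hcon
    push Not at hcon
    have h1 : {j | y.1 j = P.top} = Set.univ := by
      ext j
      simp [hcon j]
    have h2 := y.2
    rw [h1] at h2
    exact Set.infinite_univ h2
  obtain ⟨a, ha⟩ : ∃ a, y.1 j = P.pt a := by
    rcases h1 : y.1 j with _ | a
    · exact absurd h1 hj
    · exact ⟨a, rfl⟩
  obtain ⟨b, hb⟩ := exists_notMem (small_singleton j a)
  have hch : ∀ i, ∃ x : X i, True := fun i => by
    obtain ⟨x, _⟩ := exists_notMem (small_empty i)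
    exact ⟨x, trivial⟩
  choose x0 _ using hch
  let x : ∀ i, X i := Function.update x0 j b
  have h1 : f x ∈ closure (f '' Set.pi Set.univ (fun _ => Set.univ)) :=
    subset_closure ⟨x, by simp, rfl⟩
  rw [hy, mem_closure_iff] at h1
  have hopen : IsOpen ({P.pt a}ᶜ : Set (P j)) := by
    rw [P_open]
    right
    refine ⟨by simp, (small_singleton j a).mono ?_⟩
    intro x hx
    simpa using hx
  obtain ⟨w, hw1, hw2⟩ := h1 ((fun p : Y₀ => co p j) ⁻¹' {P.pt a}ᶜ) (hopen.preimage (co_cont j)) (by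
    intro h2
    have h3 : (P.pt (x j) : P j) = P.pt a := h2
    injection h3 with h3
    apply hb
    rw [mem_singleton_iff, ← h3]
    simp [x])
  rw [mem_singleton_iff.1 hw2] at hw1
  exact hw1 ha

end

end Pool.Agent.H8.S3166
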