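import Mathlib

set_option autoImplicit false

open Set Filter Topology

namespace Pool.Agent.H8.UMon

/-- codes -/
inductive L : Type
  | base : L
  | mk : (ℝ → ℝ) → ℝ → (ℕ → L) → (ℕ → ℝ) → ℕ → L

/-- a discrete copy of the real line plus a one-point Lindelöfication of the discrete set `L` -/
inductive X : Type
  | d : ℝ → X
  | pt : L → X
  | inf : X

noncomputable instance : DecidableEq X := Classical.decEq _

instance : TopologicalSpace X where
  IsOpen U := X.inf ∈ U → {l | X.pt l ∉ U}.Countable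
  isOpen_univ := by
    intro _
    simp
  isOpen_inter := by
    intro U V hU hV h
    refine ((hU h.1).union (hV h.2)).mono ?_
    intro l hl
    by_contra hc
    rw [mem_union, not_or] at hc
    simp only [Set.mem_ofPred_eq, not_not] at hc
    exact hl hc
  isOpen_sUnion := by
    rintro 𝒮 h ⟨U, hU, hx⟩
    refine (h U hU hx).mono ?_
    intro l hl hc
    exact hl ⟨U, hU, hc⟩

theorem isOpen_def {U : Set X} : IsOpen U ↔ (X.inf ∈ U → {l | X.pt l ∉ U}.Countable) := Iff.rfl

instance : T1Space X := by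
  refine ⟨fun y => ?_⟩
  rw [← isOpen_compl_iff, isOpen_def]
  intro _
  apply Set.Subsingleton.countable
  intro l hl l' hl'
  simp only [Set.mem_ofPred_eq, mem_compl_iff, mem_singleton_iff, not_not] at hl hl'
  have := hl.trans hl'.symm
  injection this

theorem isOpen_singleton_pt (l : L) : IsOpen {X.pt l} := by
  rw [isOpen_def]
  intro h
  cases h

theorem isOpen_singleton_d (t : ℝ) : IsOpen {X.d t} := by
  rw [isOpen_def]
  intro h
  cases h

instance : T35Space X where
  toCompletelyRegularSpace := by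
    apply CompletelyRegularSpace.of_isTopologicalBasis_clopens
    refine TopologicalSpace.isTopologicalBasis_of_isOpen_of_nhds ?_ ?_
    · intro u hu
      exact hu.2
    · intro x U hx hU
      rcases x with t | l | _
      · exact ⟨{X.d t}, ⟨isClosed_singleton, isOpen_singleton_d t⟩, rfl, by simpa using hx⟩
      · exact ⟨{X.pt l}, ⟨isClosed_singleton, isOpen_singleton_pt l⟩, rfl, by simpa using hx⟩
      · refine ⟨U, ⟨?_, hU⟩, hx, Subset.rfl⟩
        rw [← isOpen_compl_iff, isOpen_def]
        intro h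
        exact absurd hx h

theorem continuous_iff' {f : X → ℝ} : Continuous f ↔ {l | f (X.pt l) ≠ f X.inf}.Countable := by
  constructor
  · intro hf
    have h1 : {l | f (X.pt l) ≠ f X.inf} ⊆
        ⋃ n : ℕ, {l | X.pt l ∉ f ⁻¹' (Metric.ball (f X.inf) (1 / ((n : ℝ) + 1)))} := by
      intro l hl
      have hd : 0 < dist (f (X.pt l)) (f X.inf) := dist_pos.2 hl
      obtain ⟨n, hn⟩ := exists_nat_one_div_lt hd
      refine mem_iUnion.2 ⟨n, ?_⟩
      intro h
      rw [mem_preimage, Metric.mem_ball] at h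
      exact absurd (h.trans hn) (lt_irrefl _)
    refine Set.Countable.mono h1 (countable_iUnion fun n => ?_)
    have ho := isOpen_def.1 (Metric.isOpen_ball.preimage hf
      (t := Metric.ball (f X.inf) (1 / ((n : ℝ) + 1))))
    exact ho (by
      rw [mem_preimage]
      exact Metric.mem_ball_self (by positivity))
  · intro h
    refine ⟨fun V hV => ?_⟩
    rw [isOpen_def]
    intro hi
    refine h.mono ?_
    intro l hl heq
    apply hl
    rw [mem_preimage, heq]
    exact hi

def code (f : X → ℝ) (n : ℕ) (e : ℕ → L) : L :=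
  L.mk (fun t => f (X.d t)) (f X.inf) e (fun k => f (X.pt (e k))) n

open Classical in
noncomputable def app (f : X → ℝ) (n : ℕ) (e : ℕ → L) : X → ℝ :=
  Function.update f (X.pt (code f n e))
    (if f (X.pt (code f n e)) = f X.inf then f X.inf + 1 / ((n : ℝ) + 1)
      else f (X.pt (code f n e)))

def Good (f : X → ℝ) (e : ℕ → L) : Prop := ∀ l, f (X.pt l) ≠ f X.inf → l ∈ range e

theorem code_inj {f f' : X → ℝ} {n n' : ℕ} {e e' : ℕ → L} (h : Good f e) (h' : Good f' e')
    (hc : code f n e = code f' n' e') : f = f' ∧ n = n' ∧ e = e' := by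
  unfold code at hc
  injection hc with h1 h2 h3 h4 h5
  subst h3
  refine ⟨?_, h5, rfl⟩
  funext x
  rcases x with t | l | _
  · exact congrFun h1 t
  · by_cases hl : l ∈ range e
    · obtain ⟨k, rfl⟩ := hl
      exact congrFun h4 k
    · have e1 : f (X.pt l) = f X.inf := by
        by_contra hne
        exact hl (h l hne)
      have e2 : f' (X.pt l) = f' X.inf := by
        by_contra hne
        exact hl (h' l hne)
      rw [e1, e2, h2]
  · exact h2

theorem app_inf (f : X → ℝ) (n : ℕ) (e : ℕ → L) : app f n e X.inf = f X.inf := by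
  unfold app
  rw [Function.update_of_ne]
  intro h
  cases h

theorem app_code (f : X → ℝ) (n : ℕ) (e : ℕ → L) :
    app f n e (X.pt (code f n e)) ≠ app f n e X.inf := by
  rw [app_inf]
  unfold app
  rw [Function.update_self]
  split_ifs with h
  · have : (0 : ℝ) < 1 / ((n : ℝ) + 1) := by positivity
    linarith
  · exact h

theorem app_dist (f : X → ℝ) (n : ℕ) (e : ℕ → L) (x : X) :
    |f x - app f n e x| ≤ 1 / ((n : ℝ) + 1) := by
  have hp : (0 : ℝ) < 1 / ((n : ℝ) + 1) := by positivity
  by_cases hx : x = X.pt (code f n e)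
  · rw [hx]
    unfold app
    rw [Function.update_self]
    split_ifs with h
    · rw [h, show f X.inf - (f X.inf + 1 / ((n : ℝ) + 1)) = - (1 / ((n : ℝ) + 1)) by ring, abs_neg,
        abs_of_pos hp]
    · rw [sub_self, abs_zero]
      exact hp.le
  · unfold app
    rw [Function.update_of_ne hx, sub_self, abs_zero]
    exact hp.le

theorem app_cont {f : X → ℝ} (hf : Continuous f) (n : ℕ) (e : ℕ → L) : Continuous (app f n e) := by
  rw [continuous_iff'] at hf ⊢
  refine (hf.union (countable_singleton (code f n e))).mono ?_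
  intro l hl
  by_contra hc
  rw [mem_union, not_or] at hc
  obtain ⟨h1, h2⟩ := hc
  simp only [Set.mem_ofPred_eq, not_not, ne_eq] at h1
  rw [mem_singleton_iff] at h2
  apply hl
  rw [app_inf]
  unfold app
  rw [Function.update_of_ne, h1]
  intro h
  injection h with h
  exact h2 h

theorem exists_good {f : X → ℝ} (hf : Continuous f) : ∃ e, Good f e := by
  rw [continuous_iff'] at hf
  obtain ⟨e, he⟩ := (hf.insert L.base).exists_eq_range (insert_nonempty _ _)
  refine ⟨e, fun l hl => ?_⟩
  rw [← he]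
  exact mem_insert_of_mem _ hl

def Y : Set (X → ℝ) := {y | ∃ f n e, Continuous f ∧ Good f e ∧ y = app f n e}

theorem countable_closure {A : Set (X → ℝ)} (hA : A ⊆ Y) (hAc : A.Countable) :
    (closure A ∩ Y).Countable := by
  have hcont : ∀ a ∈ A, Continuous a := by
    intro a ha
    obtain ⟨f, n, e, hf, _, rfl⟩ := hA ha
    exact app_cont hf n e
  have hS : (⋃ a ∈ A, {l | a (X.pt l) ≠ a X.inf}).Countable :=
    hAc.biUnion fun a ha => continuous_iff'.1 (hcont a ha)
  have hcl : ∀ h ∈ closure A, ∀ l, l ∉ (⋃ a ∈ A, {l | a (X.pt l) ≠ a X.inf}) →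
      h (X.pt l) = h X.inf := by
    intro h hh l hl
    have hclosed : IsClosed {h : X → ℝ | h (X.pt l) = h X.inf} :=
      isClosed_eq (continuous_apply _) (continuous_apply _)
    refine closure_minimal ?_ hclosed hh
    intro a ha
    by_contra hne
    exact hl (mem_iUnion₂.2 ⟨a, ha, hne⟩)
  have hsub : closure A ∩ Y ⊆ ⋃ l ∈ (⋃ a ∈ A, {l | a (X.pt l) ≠ a X.inf}),
      {y | ∃ f n e, Good f e ∧ y = app f n e ∧ code f n e = l} := by
    rintro h ⟨hh, f, n, e, hf, hg, rfl⟩
    refine mem_iUnion₂.2 ⟨code f n e, ?_, f, n, e, hg, rfl, rfl⟩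
    by_contra hc
    exact app_code f n e (hcl _ hh _ hc)
  refine (hS.biUnion fun l _ => ?_).mono hsub
  apply Set.Subsingleton.countable
  rintro y ⟨f, n, e, hg, rfl, h1⟩ y' ⟨f', n', e', hg', rfl, h2⟩
  obtain ⟨rfl, rfl, rfl⟩ := code_inj hg hg' (h1.trans h2.symm)
  rfl

/-- indicator of a set of isolated points of the first kind -/
noncomputable def ind (S : Set ℝ) : X → ℝ
  | X.d t => S.indicator 1 t
  | X.pt _ => 0
  | X.inf => 0

theorem ind_cont (S : Set ℝ) : Continuous (ind S) := by
  rw [continuous_iff']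
  have : {l | ind S (X.pt l) ≠ ind S X.inf} = ∅ := by
    ext l
    simp [ind]
  rw [this]
  exact countable_empty

theorem main_thm : ¬ (∀ (X : Type) [TopologicalSpace X] [T35Space X] (Y : Set (X → ℝ)),
      Y ⊆ {f : X → ℝ | Continuous f} →
      (∀ f : X → ℝ, Continuous f → ∀ ε : ℝ, ε > 0 → ∃ g ∈ Y, ∀ x : X, |f x - g x| < ε) →
      (∀ A : Set (X → ℝ), A ⊆ Y → A.Countable →
        ∃ 𝒩 : Set (Set (X → ℝ)), 𝒩.Countable ∧
          ∀ h ∈ closure A ∩ Y, ∀ U : Set (X → ℝ), IsOpen U → h ∈ U →
            ∃ N ∈ 𝒩, h ∈ N ∧ N ⊆ U ∩ (closure A ∩ Y)) →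
      (∀ A : Set (X → ℝ), A ⊆ {f : X → ℝ | Continuous f} → A.Countable →
        ∃ 𝒩 : Set (Set (X → ℝ)), 𝒩.Countable ∧
          ∀ h ∈ closure A ∩ {f : X → ℝ | Continuous f}, ∀ U : Set (X → ℝ), IsOpen U → h ∈ U →
            ∃ N ∈ 𝒩, h ∈ N ∧ N ⊆ U ∩ (closure A ∩ {f : X → ℝ | Continuous f}))) := by
  intro H
  have H1 := H X Y (by
      rintro y ⟨f, n, e, hf, _, rfl⟩
      exact app_cont hf n e) (by
      intro f hf ε hε
      obtain ⟨n, hn⟩ := exists_nat_one_div_lt hε
      obtain ⟨e, he⟩ := exists_good hf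
      exact ⟨app f n e, ⟨f, n, e, hf, he, rfl⟩, fun x => (app_dist f n e x).trans_lt hn⟩) (by
      intro A hA hAc
      refine ⟨(fun h => {h}) '' (closure A ∩ Y), (countable_closure hA hAc).image _, ?_⟩
      intro h hh U hU hhU
      refine ⟨{h}, ⟨h, hh, rfl⟩, rfl, ?_⟩
      rw [singleton_subset_iff]
      exact ⟨hhU, hh⟩)
  obtain ⟨𝒩, hN, hnet⟩ := H1 (range fun pq : ℚ × ℚ => ind (Ioo (pq.1 : ℝ) (pq.2 : ℝ))) (by
    rintro _ ⟨pq, rfl⟩
    exact ind_cont _) (countable_range _)
  have hmem : ∀ t : ℝ, ind {t} ∈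
      closure (range fun pq : ℚ × ℚ => ind (Ioo (pq.1 : ℝ) (pq.2 : ℝ))) := by
    intro t
    have hp : ∀ n : ℕ, ∃ p : ℚ, t - 1 / ((n : ℝ) + 1) < p ∧ (p : ℝ) < t := by
      intro n
      apply exists_rat_btwn
      have : (0 : ℝ) < 1 / ((n : ℝ) + 1) := by positivity
      linarith
    have hq : ∀ n : ℕ, ∃ p : ℚ, t < p ∧ (p : ℝ) < t + 1 / ((n : ℝ) + 1) := by
      intro n
      apply exists_rat_btwn
      have : (0 : ℝ) < 1 / ((n : ℝ) + 1) := by positivity
      linarith
    choose p hp1 hp2 using hp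
    choose q hq1 hq2 using hq
    have ht : Tendsto (fun n => ind (Ioo (p n : ℝ) (q n : ℝ))) atTop (𝓝 (ind {t})) := by
      rw [tendsto_pi_nhds]
      intro x
      apply tendsto_nhds_of_eventually_eq
      rcases x with s | l | _
      · by_cases hs : s = t
        · refine Eventually.of_forall fun n => ?_
          subst hs
          simp [ind, hp2 n, hq1 n]
        · have hd : 0 < |s - t| := abs_pos.2 (sub_ne_zero.2 hs)
          have hev : ∀ᶠ n : ℕ in atTop, 1 / ((n : ℝ) + 1) < |s - t| :=
            (tendsto_one_div_add_atTop_nhds_zero_nat (𝕜 := ℝ)).eventually_lt_const hd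
          filter_upwards [hev] with n hn
          have hns : s ∉ Ioo (p n : ℝ) (q n : ℝ) := by
            rintro ⟨h1, h2⟩
            have h3 := hp1 n
            have h4 := hq2 n
            have : |s - t| < 1 / ((n : ℝ) + 1) := by
              rw [abs_lt]
              constructor <;> linarith
            linarith
          have hns' : s ∉ ({t} : Set ℝ) := hs
          change (Ioo (p n : ℝ) (q n : ℝ)).indicator 1 s = ({t} : Set ℝ).indicator 1 s
          rw [indicator_of_notMem hns, indicator_of_notMem hns']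
      · exact Eventually.of_forall fun n => rfl
      · exact Eventually.of_forall fun n => rfl
    exact mem_closure_of_tendsto ht (Eventually.of_forall fun n => ⟨(p n, q n), rfl⟩)
  have hopen : ∀ t : ℝ, IsOpen {h : X → ℝ | 1 / 2 < h (X.d t)} := fun t =>
    isOpen_lt continuous_const (continuous_apply _)
  have hone : ∀ t : ℝ, ind {t} (X.d t) = 1 := by
    intro t
    simp [ind]
  have hch : ∀ t : ℝ, ∃ N ∈ 𝒩, ind {t} ∈ N ∧ N ⊆ {h : X → ℝ | 1 / 2 < h (X.d t)} := by
    intro t
    obtain ⟨N, hN1, hN2, hN3⟩ := hnet (ind {t}) ⟨hmem t, ind_cont _⟩ _ (hopen t) (by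
      rw [Set.mem_ofPred_eq, hone]
      norm_num)
    exact ⟨N, hN1, hN2, fun h hh => (hN3 hh).1⟩
  choose N hN1 hN2 hN3 using hch
  have hinj : Function.Injective N := by
    intro t s hts
    have h1 := hN3 s (hts ▸ hN2 t)
    by_contra hne
    have h2 : ind {t} (X.d s) = 0 := by
      have : s ∉ ({t} : Set ℝ) := fun h => hne h.symm
      change ({t} : Set ℝ).indicator 1 s = 0
      rw [indicator_of_notMem this]
    rw [Set.mem_ofPred_eq, h2] at h1
    norm_num at h1
  have hc : (univ : Set ℝ).Countable := by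
    refine (hN.preimage hinj).mono ?_
    intro t _
    exact hN1 t
  exact Set.not_countable_univ hc

end Pool.Agent.H8.UMon
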